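import Mathlib

set_option autoImplicit false

namespace Pool.Agent.P.MP_8c6834_co

/-- The hypergrid `[t]^n`: functions `Fin n → Fin t` with the coordinatewise order. -/
abbrev Grid (n t : ℕ) : Type := Fin n → Fin t

/-- `F` is induced `P`-free: no induced copy of `P` (order embedding of `P` into the hypergrid)
has its image inside `F`. -/
def InducedFree (P : Type) [PartialOrder P] {n t : ℕ} (F : Finset (Grid n t)) : Prop :=
  ¬ ∃ φ : P ↪o Grid n t, ∀ x, φ x ∈ F

/-- `F` is induced `P`-saturated: it is induced `P`-free, and adding any further point of the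
hypergrid creates an induced copy of `P`. -/
def InducedSaturated (P : Type) [PartialOrder P] {n t : ℕ} (F : Finset (Grid n t)) : Prop :=
  InducedFree P F ∧ ∀ f, f ∉ F → ¬ InducedFree P (insert f F)

/-- `sat*([t]^n, P)`: the minimum size of an induced `P`-saturated family in `[t]^n`. -/
noncomputable def satStar (P : Type) [PartialOrder P] (n t : ℕ) : ℕ :=
  sInf {m : ℕ | ∃ F : Finset (Grid n t), InducedSaturated P F ∧ F.card = m}

end Pool.Agent.P.MP_8c6834_co
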