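import Mathlib
import Pool.Agent.P.MP_8c6834_co.Defs

set_option autoImplicit false

namespace Pool.Agent.P.MP_8c6834_co

/-- backtracking enumeration of assignments -/
def enumA (ple gle : ℕ → ℕ → Bool) (cand : List ℕ) : ℕ → List (ℕ × ℕ) → List (List (ℕ × ℕ))
  | 0, acc => [acc]
  | k + 1, acc => cand.flatMap fun a =>
      if acc.all (fun p => (ple k p.1 == gle a p.2) && (ple p.1 k == gle p.2 a)) then
        enumA ple gle cand k ((k, a) :: acc) else []

theorem mem_enumA (ple gle : ℕ → ℕ → Bool) (cand : List ℕ) (m : ℕ) (l : ℕ → ℕ)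
    (hl : ∀ i < m, ∀ j < m, ple i j = gle (l i) (l j)) (hc : ∀ i < m, l i ∈ cand) :
    ∀ k ≤ m, ∀ acc : List (ℕ × ℕ), (∀ p ∈ acc, p.1 < m ∧ p.2 = l p.1) →
      (List.range k).map (fun i => (i, l i)) ++ acc ∈ enumA ple gle cand k acc := by
  intro k
  induction k with
  | zero => intro _ acc _; simp [enumA]
  | succ k ih =>
    intro hk acc hacc
    have hkm : k < m := hk
    simp only [enumA, List.mem_flatMap]
    refine ⟨l k, hc k hkm, ?_⟩
    have h1 : acc.all (fun p => (ple k p.1 == gle (l k) p.2) && (ple p.1 k == gle p.2 (l k)))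
        = true := by
      rw [List.all_eq_true]
      intro p hp
      obtain ⟨h2, h3⟩ := hacc p hp
      rw [h3, hl k hkm _ h2, hl _ h2 k hkm]
      simp
    rw [if_pos h1]
    have := ih hkm.le ((k, l k) :: acc) (by
      intro p hp
      rcases List.mem_cons.1 hp with h | h
      · subst h; exact ⟨hkm, rfl⟩
      · exact hacc p h)
    simpa [List.range_succ] using this

/-- bit mask of a list of indices -/
def maskL : List ℕ → ℕ
  | [] => 0
  | a :: r => 2 ^ a ||| maskL r

theorem testBit_maskL (c : List ℕ) (x : ℕ) : (maskL c).testBit x = true ↔ x ∈ c := by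
  induction c with
  | nil => simp [maskL]
  | cons a r ih =>
    simp only [maskL, Nat.testBit_or, Bool.or_eq_true, ih, List.mem_cons, Nat.testBit_two_pow]
    constructor
    · rintro (h | h)
      · left; exact (of_decide_eq_true h).symm
      · right; exact h
    · rintro (h | h)
      · left; simp [h]
      · right; exact h

theorem land_eq_iff (c m : ℕ) :
    c &&& m = c ↔ ∀ x, c.testBit x = true → m.testBit x = true := by
  constructor
  · intro h x hx
    have := congrArg (fun y => Nat.testBit y x) h
    simpa [Nat.testBit_and, hx] using this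
  · intro h
    apply Nat.eq_of_testBit_eq
    intro x
    rw [Nat.testBit_and]
    cases hx : c.testBit x
    · simp
    · simp [h x hx]

def popc (N m : ℕ) : ℕ := ((List.range N).filter (fun a => m.testBit a)).length

theorem popc_succ (a m : ℕ) :
    popc (a + 1) m = popc a m + if m.testBit a = true then 1 else 0 := by
  unfold popc
  rw [List.range_succ, List.filter_append, List.length_append]
  cases h : m.testBit a <;> simp [h]

/-- pruned search: `F` are the points put in the family, `S` (listed in `Sl`) those left out -/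
def srch (L : List ℕ) (B : ℕ) : ℕ → ℕ → ℕ → List ℕ → ℕ → Bool
  | 0, _, _, _, nF => Nat.ble B nF
  | a + 1, F, S, Sl, nF => Nat.ble B nF ||
      ((L.any (fun c => Nat.beq (c &&& (F ||| 2 ^ a)) c) ||
        srch L B a (F ||| 2 ^ a) S Sl (nF + 1)) &&
      ((a :: Sl).any (fun s => L.all (fun c => !(Nat.beq (c &&& (S ||| 2 ^ a)) (2 ^ s)))) ||
        srch L B a F (S ||| 2 ^ a) (a :: Sl) nF))

theorem srch_spec (L : List ℕ) (B N M : ℕ)
    (hfree : ∀ c ∈ L, ¬ ∀ x, c.testBit x = true → M.testBit x = true)
    (hsat : ∀ f < N, M.testBit f = false →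
      ∃ c ∈ L, ∀ x, c.testBit x = true → M.testBit x = true ∨ x = f) :
    ∀ k ≤ N, ∀ (F S : ℕ) (Sl : List ℕ) (nF : ℕ),
      (∀ x, F.testBit x = true → M.testBit x = true) →
      (∀ x, S.testBit x = true → M.testBit x = false) →
      (∀ s ∈ Sl, s < N ∧ S.testBit s = true) →
      srch L B k F S Sl nF = true → B ≤ nF + popc k M := by
  intro k
  induction k with
  | zero =>
    intro _ F S Sl nF _ _ _ h
    simp only [srch, Nat.ble_eq] at h
    omega
  | succ a ih =>
    intro ha F S Sl nF hF hS hSl h
    simp only [srch, Bool.or_eq_true, Bool.and_eq_true, Nat.ble_eq, List.any_eq_true,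
      Nat.beq_eq, List.all_eq_true, Bool.not_eq_true'] at h
    rcases h with h | ⟨h1, h2⟩
    · omega
    rw [popc_succ]
    cases hb : M.testBit a
    · have hS' : ∀ x, (S ||| 2 ^ a).testBit x = true → M.testBit x = false := by
        intro x hx
        rw [Nat.testBit_or, Bool.or_eq_true, Nat.testBit_two_pow] at hx
        rcases hx with hx | hx
        · exact hS x hx
        · rw [← of_decide_eq_true hx]; exact hb
      have hSl' : ∀ s ∈ a :: Sl, s < N ∧ (S ||| 2 ^ a).testBit s = true := by
        intro s hs
        rw [Nat.testBit_or, Bool.or_eq_true, Nat.testBit_two_pow]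
        rcases List.mem_cons.1 hs with h3 | h3
        · subst h3; exact ⟨ha, Or.inr (by simp)⟩
        · exact ⟨(hSl s h3).1, Or.inl (hSl s h3).2⟩
      rcases h2 with ⟨s, hs, h3⟩ | h3
      · exfalso
        obtain ⟨h4, h5⟩ := hSl' s hs
        obtain ⟨c, hc, h6⟩ := hsat s h4 (hS' s h5)
        have h7 := h3 c hc
        rw [← Bool.not_eq_true, Nat.beq_eq] at h7
        apply h7
        have h8 : c.testBit s = true := by
          by_contra h9
          apply hfree c hc
          intro x hx
          rcases h6 x hx with h10 | h10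
          · exact h10
          · subst h10; exact absurd hx h9
        apply Nat.eq_of_testBit_eq
        intro x
        rw [Nat.testBit_and, Nat.testBit_two_pow]
        by_cases hxs : s = x
        · subst hxs; simp [h8, h5]
        · cases hx : c.testBit x
          · simp [hxs]
          · cases hx2 : (S ||| 2 ^ a).testBit x
            · simp [hxs]
            · exfalso
              rcases h6 x hx with h10 | h10
              · rw [hS' x hx2] at h10; exact absurd h10 (by simp)
              · exact hxs h10.symm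
      · have := ih (by omega) _ _ _ _ hF hS' hSl' h3
        simpa using this
    · have hF' : ∀ x, (F ||| 2 ^ a).testBit x = true → M.testBit x = true := by
        intro x hx
        rw [Nat.testBit_or, Bool.or_eq_true, Nat.testBit_two_pow] at hx
        rcases hx with hx | hx
        · exact hF x hx
        · rw [← of_decide_eq_true hx]; exact hb
      rcases h1 with ⟨c, hc, h3⟩ | h3
      · exfalso
        rw [land_eq_iff] at h3
        exact hfree c hc (fun x hx => hF' x (h3 x hx))
      · have := ih (by omega) _ _ _ _ hF' hS hSl h3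
        simp only [if_true]
        omega

/-- a coding of the poset `P` by numbers below `m` -/
structure Coding (P : Type) [PartialOrder P] (m : ℕ) (ple : ℕ → ℕ → Bool) where
  q : ℕ → P
  r : P → ℕ
  r_lt : ∀ x, r x < m
  q_r : ∀ x, q (r x) = x
  r_q : ∀ i < m, r (q i) = i
  le_iff : ∀ i < m, ∀ j < m, ple i j = true ↔ q i ≤ q j

section
variable {P : Type} [PartialOrder P] {n t m N : ℕ} {ple gle : ℕ → ℕ → Bool}

theorem not_free_iff (cp : Coding P m ple) (cg : Coding (Grid n t) N gle)
    (F : Finset (Grid n t)) :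
    ¬ InducedFree P F ↔ ∃ l : ℕ → ℕ, (∀ i < m, l i < N ∧ cg.q (l i) ∈ F) ∧
      ∀ i < m, ∀ j < m, ple i j = gle (l i) (l j) := by
  unfold InducedFree
  rw [not_not]
  constructor
  · rintro ⟨φ, hφ⟩
    refine ⟨fun i => cg.r (φ (cp.q i)), fun i _ => ⟨cg.r_lt _, by rw [cg.q_r]; exact hφ _⟩, ?_⟩
    intro i hi j hj
    rw [Bool.eq_iff_iff, cp.le_iff i hi j hj, cg.le_iff _ (cg.r_lt _) _ (cg.r_lt _), cg.q_r,
      cg.q_r, φ.le_iff_le]
  · rintro ⟨l, h1, h2⟩
    refine ⟨OrderEmbedding.ofMapLEIff (fun x => cg.q (l (cp.r x))) ?_, fun x => ?_⟩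
    · intro x y
      rw [← cg.le_iff _ (h1 _ (cp.r_lt x)).1 _ (h1 _ (cp.r_lt y)).1,
        ← h2 _ (cp.r_lt x) _ (cp.r_lt y), cp.le_iff _ (cp.r_lt x) _ (cp.r_lt y), cp.q_r, cp.q_r]
    · exact (h1 _ (cp.r_lt x)).2

/-- validity of an explicit assignment list -/
def validW (m N : ℕ) (ple gle : ℕ → ℕ → Bool) (w : List ℕ) : Bool :=
  Nat.beq w.length m && w.all (fun a => Nat.blt a N) &&
  (List.range m).all (fun i => (List.range m).all (fun j =>
    ple i j == gle (w.getD i 0) (w.getD j 0)))

theorem not_free_of_validW (cp : Coding P m ple) (cg : Coding (Grid n t) N gle)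
    (F : Finset (Grid n t)) (w : List ℕ) (hw : validW m N ple gle w = true)
    (hF : ∀ a ∈ w, cg.q a ∈ F) : ¬ InducedFree P F := by
  rw [not_free_iff cp cg]
  simp only [validW, Bool.and_eq_true, List.all_eq_true, List.mem_range, beq_iff_eq,
    Nat.beq_eq, Nat.blt_eq] at hw
  obtain ⟨⟨h1, h2⟩, h3⟩ := hw
  refine ⟨fun i => w.getD i 0, fun i hi => ?_, h3⟩
  have hmem : w.getD i 0 ∈ w := by
    rw [List.getD_eq_getElem _ _ (by omega)]
    exact List.getElem_mem _
  exact ⟨h2 _ hmem, hF _ hmem⟩

theorem exists_saturated (x0 : P) : ∃ F : Finset (Grid n t), InducedSaturated P F := by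
  classical
  have hne : (Finset.univ.filter (fun F : Finset (Grid n t) => InducedFree P F)).Nonempty := by
    refine ⟨∅, ?_⟩
    simp only [Finset.mem_filter, Finset.mem_univ, true_and]
    rintro ⟨φ, hφ⟩
    simpa using hφ x0
  obtain ⟨F, hF, hmax⟩ := Finset.exists_max_image _ Finset.card hne
  simp only [Finset.mem_filter, Finset.mem_univ, true_and] at hF hmax
  refine ⟨F, hF, fun f hf hfree => ?_⟩
  have := hmax _ hfree
  rw [Finset.card_insert_of_notMem hf] at this
  omega

/-- lower bound through the exhaustive check -/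
theorem le_satStar (cp : Coding P m ple) (cg : Coding (Grid n t) N gle) (x0 : P)
    (B : ℕ) (W : List (List ℕ)) (L : List ℕ)
    (hW : W.all (validW m N ple gle) = true) (hWL : W.map maskL = L)
    (hE : (enumA ple gle (List.range N) m []).all
      (fun c => L.contains (maskL (c.map Prod.snd))) = true)
    (hall : srch L B N 0 0 [] 0 = true) : B ≤ satStar P n t := by
  classical
  obtain ⟨F0, hF0⟩ := exists_saturated (P := P) (n := n) (t := t) x0
  unfold satStar
  refine le_csInf ⟨_, F0, hF0, rfl⟩ ?_
  rintro _ ⟨F, ⟨hfree, hsat⟩, rfl⟩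
  set M : ℕ := maskL ((List.range N).filter (fun a => decide (cg.q a ∈ F))) with hM
  have hbit : ∀ a, M.testBit a = true ↔ a < N ∧ cg.q a ∈ F := by
    intro a; rw [hM, testBit_maskL]; simp
  have h := srch_spec L B N M ?_ ?_ N le_rfl 0 0 [] 0 (by simp) (by simp) (by simp) hall
  · rw [zero_add] at h
    refine h.trans ?_
    unfold popc
    have hnd : ((List.range N).filter (fun a => M.testBit a)).Nodup :=
      List.Nodup.filter _ List.nodup_range
    rw [← List.toFinset_card_of_nodup hnd]
    refine Finset.card_le_card_of_injOn cg.q ?_ ?_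
    · intro a ha
      simp only [List.coe_toFinset, List.mem_filter, Set.mem_ofPred_eq] at ha
      exact ((hbit a).1 ha.2).2
    · intro a ha b hb hab
      simp only [List.coe_toFinset, List.mem_filter, List.mem_range, Set.mem_ofPred_eq] at ha hb
      have := congrArg cg.r hab
      rwa [cg.r_q _ ha.1, cg.r_q _ hb.1] at this
  · intro c hc h
    rw [← hWL, List.mem_map] at hc
    obtain ⟨w, hw, rfl⟩ := hc
    rw [List.all_eq_true] at hW
    refine not_free_of_validW cp cg F w (hW w hw) (fun a ha => ?_) hfree
    exact ((hbit a).1 (h a ((testBit_maskL w a).2 ha))).2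
  · intro f hf hfb
    have hfF : cg.q f ∉ F := by
      intro hh
      have := (hbit f).2 ⟨hf, hh⟩
      rw [hfb] at this; exact absurd this (by simp)
    obtain ⟨l, h1, h2⟩ := (not_free_iff cp cg _).1 (hsat _ hfF)
    have hmem := mem_enumA ple gle (List.range N) m l h2
      (fun i hi => List.mem_range.2 (h1 i hi).1) m le_rfl [] (by simp)
    rw [List.all_eq_true] at hE
    have h3 := hE _ hmem
    rw [List.contains_iff_mem] at h3
    refine ⟨_, h3, ?_⟩
    intro x hx
    rw [testBit_maskL] at hx
    simp only [List.append_nil, List.map_map, List.mem_map, List.mem_range,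
      Function.comp] at hx
    obtain ⟨i, hi, rfl⟩ := hx
    rcases Finset.mem_insert.1 (h1 i hi).2 with h5 | h5
    · right
      have := congrArg cg.r h5
      rwa [cg.r_q _ (h1 i hi).1, cg.r_q _ hf] at this
    · left; exact (hbit _).2 ⟨(h1 i hi).1, h5⟩

/-- upper bound from an explicit family -/
theorem satStar_le (cp : Coding P m ple) (cg : Coding (Grid n t) N gle)
    (A : List ℕ) (W : List (List ℕ))
    (hA : A.all (fun a => Nat.blt a N) = true)
    (hE : (enumA ple gle A m []).isEmpty = true)
    (hW : (List.range N).all (fun f => A.contains f ||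
      W.any (fun w => validW m N ple gle w && w.all (fun a => (f :: A).contains a))) = true) :
    satStar P n t ≤ A.length := by
  classical
  simp only [List.all_eq_true, Nat.blt_eq] at hA
  have hsat : InducedSaturated P (A.map cg.q).toFinset := by
    constructor
    · by_contra h
      obtain ⟨l, h1, h2⟩ := (not_free_iff cp cg _).1 h
      have hmem := mem_enumA ple gle A m l h2 (fun i hi => by
        have := (h1 i hi).2
        simp only [List.mem_toFinset, List.mem_map] at this
        obtain ⟨a, ha, hab⟩ := this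
        have h3 := congrArg cg.r hab
        rw [cg.r_q _ (hA a ha), cg.r_q _ (h1 i hi).1] at h3
        rw [← h3]; exact ha) m le_rfl [] (by simp)
      rw [List.isEmpty_iff] at hE
      rw [hE] at hmem
      simp at hmem
    · intro f hf
      simp only [List.all_eq_true, List.mem_range, Bool.or_eq_true, List.contains_iff_mem,
        List.any_eq_true, Bool.and_eq_true] at hW
      rcases hW (cg.r f) (cg.r_lt f) with h | ⟨w, _, h1, h2⟩
      · exfalso; apply hf
        simp only [List.mem_toFinset, List.mem_map]
        exact ⟨_, h, cg.q_r f⟩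
      · refine not_free_of_validW cp cg _ w h1 (fun a ha => ?_)
        rcases List.mem_cons.1 (h2 a ha) with h3 | h3
        · rw [h3, cg.q_r]; exact Finset.mem_insert_self _ _
        · apply Finset.mem_insert_of_mem
          simp only [List.mem_toFinset, List.mem_map]
          exact ⟨_, h3, rfl⟩
  have h1 : satStar P n t ≤ (A.map cg.q).toFinset.card := by
    unfold satStar
    exact Nat.sInf_le ⟨_, hsat, rfl⟩
  exact h1.trans ((List.toFinset_card_le _).trans (by simp))

end

/-- digit `i` of `a` in base `t` -/
def dig (t a i : ℕ) : ℕ := a / t ^ i % t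

def gleB (n t a b : ℕ) : Bool := (List.range n).all (fun i => Nat.ble (dig t a i) (dig t b i))

def gq (n t : ℕ) (ht : 0 < t) (a : ℕ) : Grid n t := fun i => ⟨dig t a i, Nat.mod_lt _ ht⟩

def gr (n t : ℕ) (g : Grid n t) : ℕ := ∑ i : Fin n, (g i).val * t ^ (i : ℕ)

theorem gleB_iff (n t : ℕ) (ht : 0 < t) (a b : ℕ) :
    gleB n t a b = true ↔ gq n t ht a ≤ gq n t ht b := by
  simp only [gleB, List.all_eq_true, List.mem_range, Nat.ble_eq, Pi.le_def, gq, Fin.le_def]
  constructor
  · intro h i; exact h i i.2
  · intro h i hi; exact h ⟨i, hi⟩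

def gridCoding (n t : ℕ) (ht : 0 < t)
    (h1 : ∀ g : Grid n t, gr n t g < t ^ n ∧ gq n t ht (gr n t g) = g)
    (h2 : ∀ a < t ^ n, gr n t (gq n t ht a) = a) : Coding (Grid n t) (t ^ n) (gleB n t) where
  q := gq n t ht
  r := gr n t
  r_lt := fun g => (h1 g).1
  q_r := fun g => (h1 g).2
  r_q := h2
  le_iff := fun i _ j _ => gleB_iff n t ht i j

end Pool.Agent.P.MP_8c6834_co
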