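import Mathlib
import Pool.Agent.P.MP_8c6834_co.Engine

set_option autoImplicit false

namespace Pool.Agent.P.MP_8c6834_co

def chainCoding : Coding (Fin 7) 7 Nat.ble where
  q := fun i => ⟨i % 7, Nat.mod_lt _ (by norm_num)⟩
  r := fun x => x.val
  r_lt := fun x => x.2
  q_r := by decide
  r_q := by decide
  le_iff := by decide

def grid24 : Coding (Grid 2 4) (4 ^ 2) (gleB 2 4) :=
  gridCoding 2 4 (by norm_num) (by decide +kernel) (by decide +kernel)

def grid25 : Coding (Grid 2 5) (5 ^ 2) (gleB 2 5) :=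
  gridCoding 2 5 (by norm_num) (by decide +kernel) (by decide +kernel)

def chainW : List (List ℕ) := [[0, 1, 2, 3, 7, 11, 15], [0, 1, 2, 6, 7, 11, 15],
  [0, 1, 5, 6, 7, 11, 15], [0, 4, 5, 6, 7, 11, 15], [0, 1, 2, 6, 10, 11, 15],
  [0, 1, 5, 6, 10, 11, 15], [0, 4, 5, 6, 10, 11, 15], [0, 1, 5, 9, 10, 11, 15],
  [0, 4, 5, 9, 10, 11, 15], [0, 4, 8, 9, 10, 11, 15], [0, 1, 2, 6, 10, 14, 15],
  [0, 1, 5, 6, 10, 14, 15], [0, 4, 5, 6, 10, 14, 15], [0, 1, 5, 9, 10, 14, 15],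
  [0, 4, 5, 9, 10, 14, 15], [0, 4, 8, 9, 10, 14, 15], [0, 1, 5, 9, 13, 14, 15],
  [0, 4, 5, 9, 13, 14, 15], [0, 4, 8, 9, 13, 14, 15], [0, 4, 8, 12, 13, 14, 15]]

def chainL : List ℕ := [34959, 35015, 35043, 35057, 35911, 35939, 35953, 36387, 36401, 36625,
  50247, 50275, 50289, 50723, 50737, 50961, 57891, 57905, 58129, 61713]

theorem chain_all : srch chainL 12 16 0 0 [] 0 = true := by decide +kernel

theorem chain_lower : 12 ≤ satStar (Fin 7) 2 4 :=
  le_satStar chainCoding grid24 0 12 chainW chainL (by decide +kernel) (by decide +kernel)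
    (by decide +kernel) chain_all

theorem chain_upper : satStar (Fin 7) 2 5 ≤ 11 :=
  satStar_le chainCoding grid25 [0, 2, 5, 9, 10, 14, 18, 19, 22, 23, 24]
    [[0, 1, 2, 9, 14, 19, 24], [0, 2, 3, 9, 14, 19, 24], [0, 2, 4, 9, 14, 19, 24],
     [0, 5, 6, 9, 14, 19, 24], [0, 2, 7, 9, 14, 19, 24], [0, 2, 8, 9, 14, 19, 24],
     [0, 5, 10, 11, 14, 19, 24], [0, 5, 10, 12, 14, 19, 24], [0, 5, 10, 13, 14, 19, 24],
     [0, 5, 10, 15, 18, 19, 24], [0, 5, 10, 16, 18, 19, 24], [0, 5, 10, 17, 18, 19, 24],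
     [0, 5, 10, 20, 22, 23, 24], [0, 5, 10, 21, 22, 23, 24]]
    (by decide +kernel) (by decide +kernel) (by decide +kernel)

theorem chain_copy : Nonempty (Fin 7 ↪o Grid 2 4) := by
  have h := not_free_of_validW chainCoding grid24 Finset.univ [0, 1, 2, 3, 7, 11, 15]
    (by decide +kernel) (fun _ _ => Finset.mem_univ _)
  unfold InducedFree at h
  obtain ⟨φ, _⟩ := not_not.1 h
  exact ⟨φ⟩

end Pool.Agent.P.MP_8c6834_co
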