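import Mathlib
import Pool.Agent.P.MP_8c6834_co.Engine

set_option autoImplicit false

namespace Pool.Agent.P.MP_8c6834_co

/-- codes of the subsets `∅, {0}, {0,1}, {0,2}, {1,2}, {3}, {0,3}` of `{0,1,2,3}` -/
def el7 (i : ℕ) : ℕ := [0, 1, 3, 5, 6, 8, 9].getD i 0

def ple7 (i j : ℕ) : Bool := gleB 4 2 (el7 i) (el7 j)

/-- the seven element poset -/
def Q7 : Type := Fin 7

instance : Fintype Q7 := inferInstanceAs (Fintype (Fin 7))
instance : DecidableEq Q7 := inferInstanceAs (DecidableEq (Fin 7))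

def Q7.val (x : Q7) : ℕ := Fin.val (n := 7) x

instance : PartialOrder Q7 where
  le := fun x y => ple7 x.val y.val = true
  le_refl := by decide
  le_trans := by decide
  le_antisymm := by decide

def q7Coding : Coding Q7 7 ple7 where
  q := fun i => (⟨i % 7, Nat.mod_lt _ (by norm_num)⟩ : Fin 7)
  r := fun x => x.val
  r_lt := fun x => Fin.isLt (n := 7) x
  q_r := fun x => Fin.ext (Nat.mod_eq_of_lt (Fin.isLt (n := 7) x))
  r_q := by decide
  le_iff := by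
    intro i hi j hj
    show _ ↔ ple7 (i % 7) (j % 7) = true
    rw [Nat.mod_eq_of_lt hi, Nat.mod_eq_of_lt hj]

def grid42 : Coding (Grid 4 2) (2 ^ 4) (gleB 4 2) :=
  gridCoding 4 2 (by norm_num) (by decide +kernel) (by decide +kernel)

def grid52 : Coding (Grid 5 2) (2 ^ 5) (gleB 5 2) :=
  gridCoding 5 2 (by norm_num) (by decide +kernel) (by decide +kernel)

def cubeW : List (List ℕ) := [[0, 1, 3, 5, 6, 8, 9], [0, 2, 3, 6, 5, 8, 10],
  [0, 1, 3, 9, 10, 4, 5], [0, 2, 3, 10, 9, 4, 6], [0, 4, 5, 6, 3, 8, 12], [0, 1, 5, 9, 12, 2, 3],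
  [0, 4, 5, 12, 9, 2, 6], [0, 2, 6, 10, 12, 1, 3], [0, 4, 6, 12, 10, 1, 5],
  [0, 8, 9, 10, 3, 4, 12], [0, 8, 9, 12, 5, 2, 10], [0, 8, 10, 12, 6, 1, 9]]

def cubeL : List ℕ := [875, 1389, 1595, 1629, 4473, 4655, 4725, 5199, 5235, 5913, 5925, 5955]

theorem cube_all : srch cubeL 13 16 0 0 [] 0 = true := by decide +kernel

theorem cube_lower : 13 ≤ satStar Q7 4 2 :=
  le_satStar q7Coding grid42 (q7Coding.q 0) 13 cubeW cubeL (by decide +kernel)
    (by decide +kernel) (by decide +kernel) cube_all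

theorem cube_upper : satStar Q7 5 2 ≤ 12 :=
  satStar_le q7Coding grid52 [0, 1, 2, 4, 6, 8, 11, 13, 19, 22, 28, 31]
    [[0, 8, 13, 28, 6, 3, 11], [0, 1, 19, 5, 6, 8, 11], [0, 1, 11, 13, 28, 6, 7],
     [0, 2, 6, 19, 28, 9, 11], [0, 1, 13, 19, 6, 10, 11], [0, 1, 11, 19, 6, 12, 13],
     [0, 2, 22, 14, 28, 1, 11], [0, 2, 19, 22, 28, 13, 15], [0, 1, 11, 13, 6, 16, 19],
     [0, 1, 13, 17, 28, 2, 11], [0, 1, 11, 13, 6, 18, 19], [0, 2, 6, 19, 20, 8, 11],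
     [0, 1, 13, 21, 28, 2, 11], [0, 1, 11, 13, 28, 6, 23], [0, 1, 11, 19, 24, 4, 13],
     [0, 1, 13, 25, 28, 2, 11], [0, 1, 11, 19, 26, 4, 13], [0, 8, 13, 28, 6, 19, 27],
     [0, 1, 11, 19, 6, 28, 29], [0, 2, 11, 19, 13, 28, 30]]
    (by decide +kernel) (by decide +kernel) (by decide +kernel)

theorem cube_copy : Nonempty (Q7 ↪o Grid 4 2) := by
  have h := not_free_of_validW q7Coding grid42 Finset.univ [0, 1, 3, 5, 6, 8, 9]
    (by decide +kernel) (fun _ _ => Finset.mem_univ _)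
  unfold InducedFree at h
  obtain ⟨φ, _⟩ := not_not.1 h
  exact ⟨φ⟩

end Pool.Agent.P.MP_8c6834_co
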