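import Mathlib
import Pool.Agent.P.MP_8c6834_co.Engine

set_option autoImplicit false

namespace Pool.Agent.P.MP_8c6834_co.Far

section
variable {G : Type} [PartialOrder G]

/-- `c 0 < ... < c (k-1)` is a chain inside `F`. -/
def Ch (F : Finset G) (k : ℕ) (c : ℕ → G) : Prop :=
  (∀ i j, i < j → j < k → c i < c j) ∧ ∀ i, i < k → c i ∈ F

theorem ch_of_succ (F : Finset G) (k : ℕ) (c : ℕ → G) (h1 : ∀ i, i + 1 < k → c i < c (i + 1))
    (h2 : ∀ i, i < k → c i ∈ F) : Ch F k c := by
  refine ⟨fun i j hij hj => ?_, h2⟩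
  induction j with
  | zero => omega
  | succ j ih =>
    rcases Nat.lt_succ_iff_lt_or_eq.1 hij with h | h
    · exact (ih h (by omega)).trans (h1 j hj)
    · subst h; exact h1 i hj

theorem Ch.le {F : Finset G} {k : ℕ} {c : ℕ → G} (h : Ch F k c) {i j : ℕ} (hij : i ≤ j)
    (hj : j < k) : c i ≤ c j := by
  rcases hij.lt_or_eq with h1 | h1
  · exact (h.1 i j h1 hj).le
  · rw [h1]

/-- a strictly monotone potential bounds the positions in a chain -/
theorem Ch.pot {F : Finset G} {k : ℕ} {c : ℕ → G} (h : Ch F k c) (r : G → ℕ)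
    (hr : ∀ a ∈ F, ∀ b ∈ F, a < b → r a < r b) {i j : ℕ} (hij : i ≤ j) (hj : j < k) :
    r (c i) + (j - i) ≤ r (c j) := by
  induction j with
  | zero => obtain rfl : i = 0 := by omega
            simp
  | succ j ih =>
    rcases hij.lt_or_eq with h1 | h1
    · have h2 := ih (by omega) (by omega)
      have h3 := hr _ (h.2 j (by omega)) _ (h.2 (j + 1) hj) (h.1 j (j + 1) (by omega) hj)
      omega
    · subst h1; simp

/-- `F` has no chain of `K+1` points and every point outside `F` fits into a chain of `K` points. -/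
def Sat (F : Finset G) (K : ℕ) : Prop :=
  (¬ ∃ c, Ch F (K + 1) c) ∧ ∀ f, f ∉ F → ∃ c i0, Ch F K c ∧ i0 ≤ K ∧ (∀ l, l < i0 → c l < f) ∧
    ∀ l, i0 ≤ l → l < K → f < c l

theorem splice {F : Finset G} {K : ℕ} (hF : ¬ ∃ c, Ch F (K + 1) c) {c c' : ℕ → G}
    (h : Ch F K c) (h' : Ch F K c') {i j : ℕ} (hi : i < K) (_hj : j < K) (hlt : c i < c' j) :
    i < j := by
  by_contra hn
  apply hF
  refine ⟨fun l => if l ≤ i then c l else c' (l - i - 1 + j), ch_of_succ _ _ _ ?_ ?_⟩
  · intro l hl
    by_cases h1 : l + 1 ≤ i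
    · rw [if_pos (by omega), if_pos h1]; exact h.1 _ _ (by omega) (by omega)
    · by_cases h2 : l ≤ i
      · rw [if_pos h2, if_neg h1]
        obtain rfl : l = i := by omega
        rw [show l + 1 - l - 1 + j = j by omega]; exact hlt
      · rw [if_neg h2, if_neg h1]; exact h'.1 _ _ (by omega) (by omega)
  · intro l hl
    by_cases h2 : l ≤ i
    · simp only [if_pos h2]; exact h.2 _ (by omega)
    · simp only [if_neg h2]; exact h'.2 _ (by omega)

theorem splice_eq {F : Finset G} {K : ℕ} (hF : ¬ ∃ c, Ch F (K + 1) c) {c c' : ℕ → G}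
    (h : Ch F K c) (h' : Ch F K c') {i j : ℕ} (hi : i < K) (hj : j < K) (he : c i = c' j) :
    i = j := by
  rcases lt_trichotomy i j with h1 | h1 | h1
  · have : c' j < c (i + 1) := by rw [← he]; exact h.1 _ _ (by omega) (by omega)
    have := splice hF h' h hj (by omega) this
    omega
  · exact h1
  · have : c i < c' (j + 1) := by rw [he]; exact h'.1 _ _ (by omega) (by omega)
    have := splice hF h h' hi (by omega) this
    omega

theorem Sat.map {G' : Type} [PartialOrder G'] (e : G ≃o G') {F : Finset G} {K : ℕ}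
    (h : Sat F K) : Sat (F.map e.toEquiv.toEmbedding) K := by
  have hm : ∀ x : G', x ∈ F.map e.toEquiv.toEmbedding ↔ e.symm x ∈ F := by
    intro x; rw [Finset.mem_map_equiv]; rfl
  constructor
  · rintro ⟨c, h1, h2⟩
    exact h.1 ⟨fun i => e.symm (c i), fun i j hij hj => e.symm.strictMono (h1 i j hij hj),
      fun i hi => (hm _).1 (h2 i hi)⟩
  · intro f hf
    obtain ⟨c, i0, ⟨h1, h2⟩, h3, h4, h5⟩ := h.2 (e.symm f) (fun hh => hf ((hm _).2 hh))
    refine ⟨fun i => e (c i), i0, ⟨fun i j hij hj => e.strictMono (h1 i j hij hj),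
      fun i hi => (hm _).2 (by simpa using h2 i hi)⟩, h3, fun l hl => ?_, fun l hl hl' => ?_⟩
    · simpa using e.strictMono (h4 l hl)
    · simpa using e.strictMono (h5 l hl hl')

end

theorem free_iff {n t k : ℕ} (F : Finset (Grid n t)) :
    InducedFree (Fin (k + 1)) F ↔ ¬ ∃ c, Ch F (k + 1) c := by
  unfold InducedFree
  apply not_congr
  constructor
  · rintro ⟨φ, hφ⟩
    refine ⟨fun i => if h : i < k + 1 then φ ⟨i, h⟩ else φ 0, fun i j hij hj => ?_, fun i hi => ?_⟩
    · simp only [dif_pos hj, dif_pos (hij.trans hj)]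
      exact φ.strictMono (Fin.mk_lt_mk.2 hij)
    · simp only [dif_pos hi]; exact hφ _
  · rintro ⟨c, h1, h2⟩
    exact ⟨OrderEmbedding.ofStrictMono (fun i : Fin (k + 1) => c i)
      (fun i j hij => h1 i j hij j.2), fun x => h2 x x.2⟩

theorem sat_iff {n t K : ℕ} (F : Finset (Grid n t)) :
    InducedSaturated (Fin (K + 1)) F ↔ Sat F K := by
  unfold InducedSaturated Sat
  rw [free_iff]
  refine and_congr_right fun hF => forall_congr' fun f => forall_congr' fun hf => ?_
  rw [free_iff, not_not]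
  constructor
  · rintro ⟨e, h1, h2⟩
    have : ∃ i0, i0 < K + 1 ∧ e i0 = f := by
      by_contra hn
      push Not at hn
      exact hF ⟨e, h1, fun i hi => (Finset.mem_insert.1 (h2 i hi)).resolve_left (hn i hi)⟩
    obtain ⟨i0, hi0, he⟩ := this
    refine ⟨fun l => if l < i0 then e l else e (l + 1), i0, ⟨fun i j hij hj => ?_, fun i hi => ?_⟩,
      by omega, fun l hl => ?_, fun l hl hl' => ?_⟩
    · dsimp only
      split_ifs with a b b
      · exact h1 _ _ hij (by omega)
      · exact h1 _ _ (by omega) (by omega)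
      · omega
      · exact h1 _ _ (by omega) (by omega)
    · dsimp only
      split_ifs with a
      · refine (Finset.mem_insert.1 (h2 i (by omega))).resolve_left ?_
        rw [← he]; exact (h1 _ _ a hi0).ne
      · refine (Finset.mem_insert.1 (h2 (i + 1) (by omega))).resolve_left ?_
        rw [← he]; exact (h1 _ _ (by omega) (by omega)).ne'
    · simp only [if_pos hl]; rw [← he]; exact h1 _ _ hl hi0
    · simp only [if_neg (not_lt.2 hl)]; rw [← he]; exact h1 _ _ (by omega) (by omega)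
  · rintro ⟨c, i0, ⟨h1, h2⟩, h3, h4, h5⟩
    refine ⟨fun l => if l < i0 then c l else if l = i0 then f else c (l - 1),
      ch_of_succ _ _ _ (fun i hi => ?_) (fun i hi => ?_)⟩
    · split_ifs with a b b' b c' c''
      · exact h1 _ _ (by omega) (by omega)
      · exact h4 _ a
      · omega
      · omega
      · omega
      · exact h5 _ (by omega) (by omega)
      · omega
      · omega
      · exact h1 _ _ (by omega) (by omega)
    · split_ifs with a b
      · exact Finset.mem_insert_of_mem (h2 _ (by omega))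
      · exact Finset.mem_insert_self _ _
      · exact Finset.mem_insert_of_mem (h2 _ (by omega))

theorem sat_upper {G : Type} [PartialOrder G] {n t K : ℕ} (e : G ≃o Grid n t) {F : Finset G}
    (h : Sat F K) : satStar (Fin (K + 1)) n t ≤ F.card := by
  unfold satStar
  exact Nat.sInf_le ⟨_, (sat_iff _).2 (h.map e), by simp⟩

theorem sat_attained (n t K : ℕ) :
    ∃ F : Finset (Grid n t), Sat F K ∧ F.card = satStar (Fin (K + 1)) n t := by
  obtain ⟨F, hF⟩ := exists_saturated (P := Fin (K + 1)) (n := n) (t := t) 0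
  have : satStar (Fin (K + 1)) n t ∈
      {m : ℕ | ∃ F : Finset (Grid n t), InducedSaturated (Fin (K + 1)) F ∧ F.card = m} :=
    Nat.sInf_mem ⟨_, F, hF, rfl⟩
  obtain ⟨F', h1, h2⟩ := this
  exact ⟨F', (sat_iff _).1 h1, h2⟩

/-- the rank of a grid point -/
def rk {n t : ℕ} (y : Grid n t) : ℕ := ∑ i, (y i).val

theorem rk_lt {n t : ℕ} {a b : Grid n t} (h : a < b) : rk a < rk b := by
  obtain ⟨h1, i, hi⟩ := Pi.lt_def.1 h
  exact Finset.sum_lt_sum (fun j _ => h1 j) ⟨i, Finset.mem_univ _, hi⟩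

theorem rk_le {n t : ℕ} (a : Grid n t) : rk a ≤ n * (t - 1) := by
  have : rk a ≤ ∑ _i : Fin n, (t - 1) :=
    Finset.sum_le_sum fun j _ => by have := (a j).2; omega
  simpa using this

/-- a chain with `k` points fits into `[s]^n` as soon as `k - 1 ≤ n (s - 1)` -/
theorem chain_emb {n s k : ℕ} (hs : 2 ≤ s) (h : k ≤ n * (s - 1) + 1) :
    Nonempty (Fin k ↪o Grid n s) := by
  refine ⟨OrderEmbedding.ofStrictMono (fun i : Fin k => fun c : Fin n =>
    (⟨min (s - 1) (i - c * (s - 1)), by omega⟩ : Fin s)) fun i j hij => ?_⟩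
  have hij' : (i : ℕ) < j := hij
  have hj := j.2
  refine Pi.lt_def.2 ⟨fun c => Fin.mk_le_mk.2 (by omega), ⟨i / (s - 1), ?_⟩, Fin.mk_lt_mk.2 ?_⟩
  · rw [Nat.div_lt_iff_lt_mul (by omega)]; omega
  · have h1 := Nat.div_add_mod' (i : ℕ) (s - 1)
    have h2 := Nat.mod_lt (i : ℕ) (show 0 < s - 1 by omega)
    dsimp only
    omega

end Pool.Agent.P.MP_8c6834_co.Far
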