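import Mathlib
import Pool.Agent.P.MP_8c6834_co.Far0

set_option autoImplicit false

namespace Pool.Agent.P.MP_8c6834_co.Far

/-- a monotone level function with values in `0..κ` and without jumps -/
structure Gad {G : Type} [PartialOrder G] (g : G → ℕ) (κ : ℕ) : Prop where
  mono : Monotone g
  le : ∀ y, g y ≤ κ
  dn : ∀ y, 0 < g y → ∃ z, z < y ∧ g y ≤ g z + 1
  up : ∀ y, g y < κ → ∃ z, y < z ∧ g z ≤ g y + 1

section
variable {G : Type} [PartialOrder G] [Fintype G]

open Classical in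
/-- points all of whose strict predecessors have a smaller level -/
noncomputable def SS (g : G → ℕ) : Finset G := Finset.univ.filter fun y => ∀ z, z < y → g z < g y

open Classical in
/-- points all of whose strict successors have a larger level -/
noncomputable def LL (g : G → ℕ) : Finset G := Finset.univ.filter fun y => ∀ z, y < z → g y < g z

theorem mem_SS {g : G → ℕ} {y : G} : y ∈ SS g ↔ ∀ z, z < y → g z < g y := by simp [SS]

theorem mem_LL {g : G → ℕ} {y : G} : y ∈ LL g ↔ ∀ z, y < z → g y < g z := by simp [LL]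

theorem Gad.exS {g : G → ℕ} {κ : ℕ} (h : Gad g κ) (y : G) : ∃ s ∈ SS g, s ≤ y ∧ g s = g y := by
  obtain ⟨s, ⟨h1, h2⟩, h3⟩ := (wellFounded_lt (α := G)).has_min {z | z ≤ y ∧ g z = g y}
    ⟨y, le_rfl, rfl⟩
  refine ⟨s, mem_SS.2 fun z hz => ?_, h1, h2⟩
  refine lt_of_le_of_ne (h.mono hz.le) fun he => h3 z ⟨hz.le.trans h1, he.trans h2⟩ hz

theorem Gad.exL {g : G → ℕ} {κ : ℕ} (h : Gad g κ) (y : G) : ∃ s ∈ LL g, y ≤ s ∧ g s = g y := by
  obtain ⟨s, ⟨h1, h2⟩, h3⟩ := (wellFounded_gt (α := G)).has_min {z | y ≤ z ∧ g z = g y}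
    ⟨y, le_rfl, rfl⟩
  refine ⟨s, mem_LL.2 fun z hz => ?_, h1, h2⟩
  refine lt_of_le_of_ne (h.mono hz.le) fun he => h3 z ⟨h1.trans hz.le, he.symm.trans h2⟩ hz

theorem Gad.down {g : G → ℕ} {κ : ℕ} (h : Gad g κ) (j : ℕ) : ∀ s ∈ SS g, g s = j →
    ∃ c : ℕ → G, (∀ i, i < j → c i < c (i + 1)) ∧ (∀ i, i ≤ j → c i ∈ SS g) ∧ c j = s := by
  induction j with
  | zero => intro s hs _; exact ⟨fun _ => s, by simp, fun _ _ => hs, rfl⟩
  | succ j ih =>
    intro s hs hj
    obtain ⟨z, hz, hz'⟩ := h.dn s (by omega)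
    have h1 := mem_SS.1 hs z hz
    obtain ⟨s', hs', h2, h3⟩ := h.exS z
    obtain ⟨c, c1, c2, c3⟩ := ih s' hs' (by omega)
    refine ⟨fun i => if i ≤ j then c i else s, fun i hi => ?_, fun i hi => ?_, by simp⟩
    · by_cases a : i + 1 ≤ j
      · simp only [if_pos a, if_pos (show i ≤ j by omega)]; exact c1 i (by omega)
      · obtain rfl : i = j := by omega
        simp only [if_neg a, if_pos le_rfl, c3]; exact h2.trans_lt hz
    · by_cases a : i ≤ j
      · simp only [if_pos a]; exact c2 i a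
      · simp only [if_neg a]; exact hs

theorem Gad.upc {g : G → ℕ} {κ : ℕ} (h : Gad g κ) (j : ℕ) : ∀ s ∈ LL g, g s + j = κ →
    ∃ c : ℕ → G, (∀ i, i < j → c i < c (i + 1)) ∧ (∀ i, i ≤ j → c i ∈ LL g) ∧ c 0 = s := by
  induction j with
  | zero => intro s hs _; exact ⟨fun _ => s, by simp, fun _ _ => hs, rfl⟩
  | succ j ih =>
    intro s hs hj
    obtain ⟨z, hz, hz'⟩ := h.up s (by omega)
    have h1 := mem_LL.1 hs z hz
    obtain ⟨s', hs', h2, h3⟩ := h.exL z
    obtain ⟨c, c1, c2, c3⟩ := ih s' hs' (by omega)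
    refine ⟨fun i => if i = 0 then s else c (i - 1), fun i hi => ?_, fun i hi => ?_, by simp⟩
    · rcases i with _ | i
      · simp only [if_pos, Nat.zero_add, one_ne_zero, if_false, Nat.sub_self, c3]
        exact hz.trans_le h2
      · simp only [Nat.succ_ne_zero, if_false, Nat.add_sub_cancel]; exact c1 i (by omega)
    · rcases i with _ | i
      · simpa using hs
      · simp only [Nat.succ_ne_zero, if_false, Nat.add_sub_cancel]; exact c2 i (by omega)

theorem Gad.sat [DecidableEq G] {g : G → ℕ} {κ : ℕ} (h : Gad g κ)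
    (H : ∀ l ∈ LL g, ∀ s ∈ SS g, ¬ l ≤ s) : Sat (SS g ∪ LL g) (κ + 2) := by
  constructor
  · rintro ⟨c, hc⟩
    have := hc.pot (fun y => g y + if y ∈ SS g then 0 else 1) (fun a ha b hb hab => by
      by_cases b1 : b ∈ SS g
      · have a1 : a ∈ SS g := (Finset.mem_union.1 ha).resolve_right fun a2 => H a a2 b b1 hab.le
        have := mem_SS.1 b1 a hab
        simp only [if_pos a1, if_pos b1]; omega
      · by_cases a1 : a ∈ SS g
        · have := h.mono hab.le
          simp only [if_pos a1, if_neg b1]; omega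
        · have := mem_LL.1 ((Finset.mem_union.1 ha).resolve_left a1) b hab
          simp only [if_neg a1, if_neg b1]; omega) (i := 0) (j := κ + 2) (by omega) (by omega)
    have h2 := h.le (c (κ + 2))
    split_ifs at this <;> omega
  · intro f hf
    rw [Finset.mem_union, not_or] at hf
    obtain ⟨s, hs, s1, s2⟩ := h.exS f
    obtain ⟨l, hl, l1, l2⟩ := h.exL f
    have s3 : s < f := lt_of_le_of_ne s1 fun e => hf.1 (e ▸ hs)
    have l3 : f < l := lt_of_le_of_ne l1 fun e => hf.2 (e ▸ hl)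
    have hfk := h.le f
    obtain ⟨c, c1, c2, c3⟩ := h.down (g f) s hs s2
    obtain ⟨d, d1, d2, d3⟩ := h.upc (κ - g f) l hl (by omega)
    have hc : Ch (SS g) (g f + 1) c := ch_of_succ _ _ _ (fun i hi => c1 i (by omega))
      fun i hi => c2 i (by omega)
    have hd : Ch (LL g) (κ - g f + 1) d := ch_of_succ _ _ _ (fun i hi => d1 i (by omega))
      fun i hi => d2 i (by omega)
    refine ⟨fun i => if i ≤ g f then c i else d (i - g f - 1), g f + 1,
      ch_of_succ _ _ _ (fun i hi => ?_) (fun i hi => ?_), by omega, fun i hi => ?_,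
      fun i hi hi' => ?_⟩
    · by_cases a : i + 1 ≤ g f
      · simp only [if_pos a, if_pos (show i ≤ g f by omega)]; exact c1 i (by omega)
      · by_cases b : i ≤ g f
        · obtain rfl : i = g f := by omega
          simp only [if_neg a, if_pos le_rfl, c3]
          rw [show g f + 1 - g f - 1 = 0 by omega, d3]; exact s3.trans l3
        · simp only [if_neg a, if_neg b]; exact hd.1 _ _ (by omega) (by omega)
    · by_cases b : i ≤ g f
      · simp only [if_pos b]; exact Finset.mem_union_left _ (c2 i b)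
      · simp only [if_neg b]; exact Finset.mem_union_right _ (d2 _ (by omega))
    · simp only [if_pos (show i ≤ g f by omega)]
      exact (hc.le (show i ≤ g f by omega) (by omega)).trans_lt (c3 ▸ s3)
    · simp only [if_neg (show ¬ i ≤ g f by omega)]
      exact (d3 ▸ l3 : f < d 0).trans_le (hd.le (Nat.zero_le _) (by omega))

end

theorem Gad.trunc {G : Type} [PartialOrder G] {g : G → ℕ} {κ ρ : ℕ} (h : Gad g κ) (hρ : ρ ≤ κ) :
    Gad (fun y => min (g y) ρ) ρ where
  mono := fun a b hab => by have := h.mono hab; dsimp only; omega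
  le := fun y => min_le_right _ _
  dn := fun y hy => by
    obtain ⟨z, h1, h2⟩ := h.dn y (by omega)
    exact ⟨z, h1, by omega⟩
  up := fun y hy => by
    obtain ⟨z, h1, h2⟩ := h.up y (by omega)
    exact ⟨z, h1, by omega⟩

section
variable {I Y : Type} [Fintype I] [DecidableEq I] [PartialOrder Y]

omit [PartialOrder Y] in
theorem sum_upd (h : I → Y → ℕ) (u : I → Y) (i : I) (z : Y) :
    ∑ j, h j (Function.update u i z j) + h i (u i) = ∑ j, h j (u j) + h i z := by
  rw [← Finset.add_sum_erase _ _ (Finset.mem_univ i),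
    ← Finset.add_sum_erase _ (fun j => h j (u j)) (Finset.mem_univ i)]
  have : ∑ j ∈ Finset.univ.erase i, h j (Function.update u i z j) =
      ∑ j ∈ Finset.univ.erase i, h j (u j) :=
    Finset.sum_congr rfl fun j hj => by rw [Function.update_of_ne (Finset.ne_of_mem_erase hj)]
  rw [this, Function.update_self]; omega

theorem Gad.pi {h : I → Y → ℕ} {κ : I → ℕ} (hh : ∀ i, Gad (h i) (κ i)) :
    Gad (fun u : I → Y => ∑ i, h i (u i)) (∑ i, κ i) where
  mono := fun a b hab => Finset.sum_le_sum fun i _ => (hh i).mono (hab i)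
  le := fun y => Finset.sum_le_sum fun i _ => (hh i).le _
  dn := fun y hy => by
    obtain ⟨i, -, hi⟩ := Finset.exists_lt_of_sum_lt (f := fun _ : I => 0) (s := Finset.univ)
      (g := fun i => h i (y i)) (by simpa using hy)
    obtain ⟨z, h1, h2⟩ := (hh i).dn _ hi
    refine ⟨Function.update y i z, update_lt_self_iff.2 h1, ?_⟩
    have := sum_upd h y i z
    omega
  up := fun y hy => by
    obtain ⟨i, -, hi⟩ := Finset.exists_lt_of_sum_lt hy
    obtain ⟨z, h1, h2⟩ := (hh i).up _ hi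
    refine ⟨Function.update y i z, lt_update_self_iff.2 h1, ?_⟩
    have := sum_upd h y i z
    omega

theorem card_SS_pi [Fintype Y] (h : I → Y → ℕ) :
    (SS (fun u : I → Y => ∑ i, h i (u i))).card ≤ ∏ i, (SS (h i)).card := by
  rw [← Fintype.card_piFinset]
  refine Finset.card_le_card fun u hu => Fintype.mem_piFinset.2 fun i => mem_SS.2 fun z hz => ?_
  have h1 := mem_SS.1 hu (Function.update u i z) (update_lt_self_iff.2 hz)
  have := sum_upd h u i z
  omega

theorem card_LL_pi [Fintype Y] (h : I → Y → ℕ) :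
    (LL (fun u : I → Y => ∑ i, h i (u i))).card ≤ ∏ i, (LL (h i)).card := by
  rw [← Fintype.card_piFinset]
  refine Finset.card_le_card fun u hu => Fintype.mem_piFinset.2 fun i => mem_LL.2 fun z hz => ?_
  have h1 := mem_LL.1 hu (Function.update u i z) (lt_update_self_iff.2 hz)
  have := sum_upd h u i z
  omega

end

/-- a gadget on `Y` gives a small saturated family in `Y × Z` -/
theorem Gad.prod_sat {Y Z : Type} [PartialOrder Y] [Fintype Y] [PartialOrder Z] [Fintype Z]
    [BoundedOrder Z] [Nontrivial Z] {g : Y → ℕ} {κ : ℕ} (h : Gad g κ) :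
    ∃ F : Finset (Y × Z), Sat F (κ + 2) ∧ F.card ≤ (SS g).card + (LL g).card := by
  classical
  have hg : Gad (fun p : Y × Z => g p.1) κ :=
    { mono := fun a b hab => h.mono hab.1
      le := fun y => h.le _
      dn := fun y hy => by
        obtain ⟨z, h1, h2⟩ := h.dn _ hy
        exact ⟨(z, y.2), Prod.lt_iff.2 (Or.inl ⟨h1, le_rfl⟩), h2⟩
      up := fun y hy => by
        obtain ⟨z, h1, h2⟩ := h.up _ hy
        exact ⟨(z, y.2), Prod.lt_iff.2 (Or.inl ⟨h1, le_rfl⟩), h2⟩ }
  have hS : ∀ s ∈ SS (fun p : Y × Z => g p.1), s.1 ∈ SS g ∧ s.2 = ⊥ := by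
    intro s hs
    refine ⟨mem_SS.2 fun z hz => mem_SS.1 hs (z, s.2) (Prod.lt_iff.2 (Or.inl ⟨hz, le_rfl⟩)), ?_⟩
    by_contra hn
    exact lt_irrefl _ (mem_SS.1 hs (s.1, ⊥) (Prod.lt_iff.2 (Or.inr ⟨le_rfl, Ne.bot_lt hn⟩)))
  have hL : ∀ s ∈ LL (fun p : Y × Z => g p.1), s.1 ∈ LL g ∧ s.2 = ⊤ := by
    intro s hs
    refine ⟨mem_LL.2 fun z hz => mem_LL.1 hs (z, s.2) (Prod.lt_iff.2 (Or.inl ⟨hz, le_rfl⟩)), ?_⟩
    by_contra hn
    exact lt_irrefl _ (mem_LL.1 hs (s.1, ⊤) (Prod.lt_iff.2 (Or.inr ⟨le_rfl, Ne.lt_top hn⟩)))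
  refine ⟨_, hg.sat fun l hl s hs hls => ?_, (Finset.card_union_le _ _).trans (add_le_add ?_ ?_)⟩
  · have := hls.2
    rw [(hL l hl).2, (hS s hs).2] at this
    exact absurd (top_le_iff.1 this) bot_ne_top
  · exact Finset.card_le_card_of_injOn Prod.fst (fun s hs => (hS s hs).1)
      fun a ha b hb hab => Prod.ext hab (by rw [(hS a ha).2, (hS b hb).2])
  · exact Finset.card_le_card_of_injOn Prod.fst (fun s hs => (hL s hs).1)
      fun a ha b hb hab => Prod.ext hab (by rw [(hL a ha).2, (hL b hb).2])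

end Pool.Agent.P.MP_8c6834_co.Far
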