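import Mathlib
import Pool.Agent.P.MP_8c6834_co.Far1
import Pool.Agent.P.MP_8c6834_co.Chain

set_option autoImplicit false

namespace Pool.Agent.P.MP_8c6834_co.Far

open Classical in
/-- the points incomparable to `p` -/
noncomputable def Inc {G : Type} [PartialOrder G] [Fintype G] (p : G) : Finset G :=
  Finset.univ.filter fun f => ¬ f ≤ p ∧ ¬ p ≤ f

theorem mem_Inc {G : Type} [PartialOrder G] [Fintype G] {p f : G} :
    f ∈ Inc p ↔ ¬ f ≤ p ∧ ¬ p ≤ f := by simp [Inc]

theorem ex_ab {n T : ℕ} (hn : 2 ≤ n) (p : Grid n (T + 1)) (h0 : 0 < rk p) (h1 : rk p < n * T) :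
    ∃ a b, a ≠ b ∧ 0 < (p a).val ∧ (p b).val < T := by
  obtain ⟨a, -, ha⟩ := Finset.exists_lt_of_sum_lt (f := fun _ : Fin n => 0) (s := Finset.univ)
    (g := fun i => (p i).val) (by simpa [rk] using h0)
  obtain ⟨b, -, hb⟩ := Finset.exists_lt_of_sum_lt (g := fun _ : Fin n => T) (s := Finset.univ)
    (f := fun i => (p i).val) (by simpa [rk] using h1)
  by_cases hab : a = b
  · subst hab
    have : Nontrivial (Fin n) := Fin.nontrivial_iff_two_le.2 hn
    obtain ⟨c, hc⟩ := exists_ne a
    by_cases h : 0 < (p c).val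
    · exact ⟨c, a, hc, h, hb⟩
    · exact ⟨a, c, hc.symm, ha, by omega⟩
  · exact ⟨a, b, hab, ha, hb⟩

/-- the pairs incomparable to `(α, β)` -/
def RR {T : ℕ} (α β : Fin (T + 1)) : Finset (Fin (T + 1) × Fin (T + 1)) :=
  (Finset.Iio α ×ˢ Finset.Ioi β) ∪ (Finset.Ioi α ×ˢ Finset.Iio β)

theorem card_RR {T : ℕ} (α β : Fin (T + 1)) :
    (RR α β).card = α * (T - β) + (T - α) * β := by
  unfold RR
  rw [Finset.card_union_of_disjoint, Finset.card_product, Finset.card_product, Fin.card_Iio,
    Fin.card_Iio, Fin.card_Ioi, Fin.card_Ioi]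
  · simp
  · rw [Finset.disjoint_left]
    intro x h1 h2
    simp only [Finset.mem_product, Finset.mem_Iio, Finset.mem_Ioi] at h1 h2
    exact lt_asymm h1.1 h2.1

theorem inc_of_RR {n T : ℕ} {p f : Grid n (T + 1)} {a b : Fin n}
    (h : (f a, f b) ∈ RR (p a) (p b)) : f ∈ Inc p := by
  simp only [RR, Finset.mem_union, Finset.mem_product, Finset.mem_Iio, Finset.mem_Ioi] at h
  rw [mem_Inc]
  rcases h with h | h
  · exact ⟨fun h' => absurd (h' b) (not_le.2 h.2), fun h' => absurd (h' a) (not_le.2 h.1)⟩
  · exact ⟨fun h' => absurd (h' a) (not_le.2 h.1), fun h' => absurd (h' b) (not_le.2 h.2)⟩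

theorem inc_two {n T : ℕ} (p : Grid n (T + 1)) {a b : Fin n} (hab : a ≠ b) :
    (RR (p a) (p b)).card ≤ (Inc p).card := by
  refine Finset.card_le_card_of_injOn
    (fun x => Function.update (Function.update p a x.1) b x.2) (fun x hx => ?_) fun x _ y _ h => ?_
  · refine inc_of_RR (a := a) (b := b) ?_
    simpa [Function.update_of_ne hab] using hx
  · have h1 := congrFun h a
    have h2 := congrFun h b
    simp only [Function.update_of_ne hab, Function.update_self] at h1 h2
    exact Prod.ext h1 h2

theorem inc_three {n T : ℕ} (p : Grid n (T + 1)) {a b c : Fin n} (hab : a ≠ b) (hac : a ≠ c)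
    (hbc : b ≠ c) : (RR (p a) (p b)).card * (T + 1) ≤ (Inc p).card := by
  have : (RR (p a) (p b)).card * (T + 1) =
      (RR (p a) (p b) ×ˢ (Finset.univ : Finset (Fin (T + 1)))).card := by simp
  rw [this]
  refine Finset.card_le_card_of_injOn
    (fun x => Function.update (Function.update (Function.update p a x.1.1) b x.1.2) c x.2)
    (fun x hx => ?_) fun x _ y _ h => ?_
  · refine inc_of_RR (a := a) (b := b) ?_
    simpa [Function.update_of_ne hab, Function.update_of_ne hac, Function.update_of_ne hbc]
      using hx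
  · have h1 := congrFun h a
    have h2 := congrFun h b
    have h3 := congrFun h c
    simp only [Function.update_of_ne hab, Function.update_of_ne hac, Function.update_of_ne hbc,
      Function.update_self] at h1 h2 h3
    exact Prod.ext (Prod.ext h1 h2) h3

theorem ar1 {T α β : ℕ} (h1 : 0 < α) (h2 : α ≤ T) (h3 : β < T) :
    T ≤ α * (T - β) + (T - α) * β := by
  obtain ⟨y, rfl⟩ : ∃ y, α = y + 1 := ⟨α - 1, by omega⟩
  obtain ⟨x, hx⟩ : ∃ x, T - β = x + 1 := ⟨T - β - 1, by omega⟩
  obtain ⟨z, hz⟩ : ∃ z, T - (y + 1) = z := ⟨_, rfl⟩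
  rw [hx, hz]
  rcases β with _ | β
  · have : T = x + 1 := by omega
    nlinarith [Nat.zero_le (y * x)]
  · have : T = y + 1 + z := by omega
    nlinarith [Nat.zero_le (y * x), Nat.zero_le (z * β)]

theorem ar2 {T α β : ℕ} (h1 : 0 < α) (h2 : α ≤ T) (h3 : β < T) (h4 : 2 ≤ α + β)
    (h5 : α + β + 2 ≤ 2 * T) (hT : 4 ≤ T) : T + 2 ≤ α * (T - β) + (T - α) * β := by
  obtain ⟨y, rfl⟩ : ∃ y, α = y + 1 := ⟨α - 1, by omega⟩
  obtain ⟨x, hx⟩ : ∃ x, T - β = x + 1 := ⟨T - β - 1, by omega⟩
  obtain ⟨z, hz⟩ : ∃ z, T - (y + 1) = z := ⟨_, rfl⟩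
  rw [hx, hz]
  rcases β with _ | β
  · have : T = x + 1 := by omega
    obtain ⟨y, rfl⟩ : ∃ y', y = y' + 1 := ⟨y - 1, by omega⟩
    nlinarith [Nat.zero_le (y * x)]
  · rcases z with _ | z
    · have : T = y + 1 := by omega
      obtain ⟨x, rfl⟩ : ∃ x', x = x' + 1 := ⟨x - 1, by omega⟩
      nlinarith [Nat.zero_le (y * x)]
    · have e1 : T = y + 1 + (z + 1) := by omega
      have e2 : T = x + 1 + (β + 1) := by omega
      nlinarith [Nat.zero_le (y * x), Nat.zero_le (z * β)]

theorem incA {n T : ℕ} (hn : 2 ≤ n) (p : Grid n (T + 1)) (h0 : 0 < rk p) (h1 : rk p < n * T) :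
    T ≤ (Inc p).card := by
  obtain ⟨a, b, hab, ha, hb⟩ := ex_ab hn p h0 h1
  have := inc_two p hab
  rw [card_RR] at this
  exact (ar1 ha (by have := (p a).2; omega) hb).trans this

theorem incB {n T : ℕ} (hn : 2 ≤ n) (hT : 3 ≤ T) (h : 4 ≤ T ∨ 3 ≤ n) (p : Grid n (T + 1))
    (h0 : 2 ≤ rk p) (h1 : rk p + 2 ≤ n * T) : T + 2 ≤ (Inc p).card := by
  obtain ⟨a, b, hab, ha, hb⟩ := ex_ab hn p (by omega) (by omega)
  have hle : (p a).val ≤ T := by have := (p a).2; omega
  by_cases h3 : 3 ≤ n
  · obtain ⟨c, hc⟩ : ∃ c : Fin n, c ∉ ({a, b} : Finset (Fin n)) := by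
      by_contra hn'
      push Not at hn'
      have h4 : (Finset.univ : Finset (Fin n)).card ≤ ({a, b} : Finset (Fin n)).card :=
        Finset.card_le_card fun x _ => hn' x
      have h5 : ({a, b} : Finset (Fin n)).card ≤ 2 := Finset.card_le_two
      simp only [Finset.card_univ, Fintype.card_fin] at h4
      omega
    simp only [Finset.mem_insert, Finset.mem_singleton, not_or] at hc
    have := inc_three p hab (Ne.symm hc.1) (Ne.symm hc.2)
    rw [card_RR] at this
    have h6 := ar1 ha hle hb
    have h7 := Nat.mul_le_mul_right (T + 1) h6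
    nlinarith
  · obtain rfl : n = 2 := by omega
    have := inc_two p hab
    rw [card_RR] at this
    have hr : rk p = (p a).val + (p b).val := by
      unfold rk
      rw [Fin.sum_univ_two]
      fin_cases a <;> fin_cases b <;> simp_all [add_comm]
    exact (ar2 ha hle hb (by omega) (by omega) (by omega)).trans this

/-- `p` lies on a coordinate axis through the bottom or through the top -/
def Ax {n T : ℕ} (p : Grid n (T + 1)) : Prop :=
  (∀ i i', 0 < (p i).val → 0 < (p i').val → i = i') ∨
    (∀ i i', (p i).val < T → (p i').val < T → i = i')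

theorem two_ax {n T : ℕ} (hT : 1 ≤ T) {p q : Grid n (T + 1)} (hpq : ¬ p ≤ q) (hqp : ¬ q ≤ p)
    (h : ∀ f, (f ≤ p ∨ p ≤ f) ∨ (f ≤ q ∨ q ≤ f)) : Ax p := by
  by_contra hn
  unfold Ax at hn
  push Not at hn
  obtain ⟨⟨i, i2, hi, hi2, hii⟩, j, j2, hj, hj2, hjj⟩ := hn
  have hE : ∀ a, (p a).val < T → (fun x => if x = a then Fin.last T else 0) ≤ q ∨
      q ≤ fun x => if x = a then Fin.last T else 0 := by
    intro a ha
    refine (h _).resolve_left ?_
    rintro (h1 | h1)
    · have := h1 a
      simp only [if_pos, Fin.le_def, Fin.val_last] at this; omega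
    · by_cases e : i = a
      · have := h1 i2
        simp only [if_neg (show i2 ≠ a from fun e' => hii (e.trans e'.symm)), Fin.le_def,
          Fin.val_zero] at this; omega
      · have := h1 i
        simp only [if_neg e, Fin.le_def, Fin.val_zero] at this; omega
  have hD : ∀ a, 0 < (p a).val → (fun x => if x = a then 0 else Fin.last T) ≤ q ∨
      q ≤ fun x => if x = a then 0 else Fin.last T := by
    intro a ha
    refine (h _).resolve_left ?_
    rintro (h1 | h1)
    · by_cases e : j = a
      · have := h1 j2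
        simp only [if_neg (show j2 ≠ a from fun e' => hjj (e.trans e'.symm)), Fin.le_def,
          Fin.val_last] at this; omega
      · have := h1 j
        simp only [if_neg e, Fin.le_def, Fin.val_last] at this; omega
    · have := h1 a
      simp only [if_pos, Fin.le_def, Fin.val_zero] at this; omega
  have s1 : ∀ a a', a ≠ a' → (p a).val < T → (p a').val < T → T ≤ (q a).val := by
    intro a a' haa ha ha'
    rcases hE a ha with h1 | h1
    · simpa [Fin.le_def] using h1 a
    · exfalso
      rcases hE a' ha' with h2 | h2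
      · have e1 := h1 a'
        have e2 := h2 a'
        simp only [if_neg haa.symm, if_pos, Fin.le_def, Fin.val_zero, Fin.val_last] at e1 e2
        omega
      · apply hqp
        intro x
        by_cases e : x = a
        · have := h2 x
          simp only [if_neg (show x ≠ a' from fun e' => haa (e.symm.trans e'))] at this
          exact this.trans (Fin.zero_le _)
        · have := h1 x
          simp only [if_neg e] at this
          exact this.trans (Fin.zero_le _)
  have s2 : ∀ a a', a ≠ a' → 0 < (p a).val → 0 < (p a').val → (q a).val = 0 := by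
    intro a a' haa ha ha'
    rcases hD a ha with h1 | h1
    · exfalso
      rcases hD a' ha' with h2 | h2
      · apply hpq
        intro x
        by_cases e : x = a
        · have := h2 x
          simp only [if_neg (show x ≠ a' from fun e' => haa (e.symm.trans e'))] at this
          exact (Fin.le_last _).trans this
        · have := h1 x
          simp only [if_neg e] at this
          exact (Fin.le_last _).trans this
      · have e1 := h1 a'
        have e2 := h2 a'
        simp only [if_neg haa.symm, if_pos, Fin.le_def, Fin.val_zero, Fin.val_last] at e1 e2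
        omega
    · have := h1 a
      simp only [if_pos, Fin.le_def, Fin.val_zero] at this; omega
  have q1 := s1 j j2 hjj hj hj2
  have q2 := s1 j2 j hjj.symm hj2 hj
  have q3 := s2 i i2 hii hi hi2
  have q4 := s2 i2 i hii.symm hi2 hi
  have n1 : i2 ≠ j := fun e => by rw [e] at q4; omega
  have n2 : j2 ≠ i := fun e => by rw [e] at q2; omega
  rcases h (fun x => if x = i ∨ x = j then Fin.last T else 0) with (h1 | h1) | h1 | h1
  · have := h1 j
    simp only [or_true, if_pos, Fin.le_def, Fin.val_last] at this; omega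
  · have := h1 i2
    simp only [hii.symm, n1, or_self, if_false, Fin.le_def, Fin.val_zero] at this; omega
  · have := h1 i
    simp only [true_or, if_pos, Fin.le_def, Fin.val_last] at this; omega
  · have := h1 j2
    simp only [hjj.symm, n2, or_self, if_false, Fin.le_def, Fin.val_zero] at this; omega

end Pool.Agent.P.MP_8c6834_co.Far
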