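import Mathlib
import Pool.Agent.P.MP_8c6834_co.Far2

set_option autoImplicit false

namespace Pool.Agent.P.MP_8c6834_co.Far

theorem ch_rk {n T K : ℕ} {F : Finset (Grid n (T + 1))} {c : ℕ → Grid n (T + 1)} (h : Ch F K c)
    {j : ℕ} (hj : j < K) : j ≤ rk (c j) ∧ rk (c j) + (K - 1 - j) ≤ n * T := by
  have h1 := h.pot rk (fun a _ b _ hab => rk_lt hab) (Nat.zero_le j) hj
  have h2 := h.pot rk (fun a _ b _ hab => rk_lt hab) (show j ≤ K - 1 by omega) (by omega)
  have h3 := rk_le (c (K - 1))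
  simp only [Nat.add_sub_cancel] at h3
  omega

theorem ax_of_ext {n T : ℕ} (p : Grid n (T + 1)) (h : ¬ (0 < rk p ∧ rk p < n * T)) : Ax p := by
  by_cases h0 : 0 < rk p
  · right
    intro i _ hi
    exfalso
    refine h ⟨h0, ?_⟩
    have : rk p < ∑ _i : Fin n, T :=
      Finset.sum_lt_sum (fun j _ => by have := (p j).2; omega) ⟨i, Finset.mem_univ _, hi⟩
    simpa using this
  · left
    intro i _ hi
    exfalso
    have : (p i).val ≤ rk p :=
      Finset.single_le_sum (f := fun j => (p j).val) (fun _ _ => Nat.zero_le _) (Finset.mem_univ i)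
    omega

theorem ax_low {n T : ℕ} (hn : 2 ≤ n) (hT : 2 ≤ T) (p : Grid n (T + 1)) (h : Ax p)
    (h1 : ∀ i, (p i).val ≤ 1) : rk p ≤ 1 := by
  have : Nontrivial (Fin n) := Fin.nontrivial_iff_two_le.2 hn
  rcases h with h | h
  · by_cases h0 : ∃ i, 0 < (p i).val
    · obtain ⟨i, hi⟩ := h0
      unfold rk
      rw [Finset.sum_eq_single i (fun j _ hj => by
        by_contra hn'; exact hj (h j i (by omega) hi)) (by simp)]
      exact h1 i
    · push Not at h0
      unfold rk
      rw [Finset.sum_eq_zero fun j _ => by have := h0 j; omega]; omega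
  · obtain ⟨a, b, hab⟩ := exists_pair_ne (Fin n)
    exact absurd (h a b (by have := h1 a; omega) (by have := h1 b; omega)) hab

theorem ax_high {n T : ℕ} (hn : 2 ≤ n) (hT : 2 ≤ T) (p : Grid n (T + 1)) (h : Ax p)
    (h1 : ∀ i, 1 ≤ (p i).val) : n * T ≤ rk p + (T - 1) := by
  have : Nontrivial (Fin n) := Fin.nontrivial_iff_two_le.2 hn
  have e : rk p + ∑ i, (T - (p i).val) = n * T := by
    unfold rk
    rw [← Finset.sum_add_distrib, Finset.sum_congr rfl
      (g := fun _ => T) fun j _ => by have := (p j).2; omega]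
    simp
  rcases h with h | h
  · obtain ⟨a, b, hab⟩ := exists_pair_ne (Fin n)
    exact absurd (h a b (by have := h1 a; omega) (by have := h1 b; omega)) hab
  · by_cases h0 : ∃ i, (p i).val < T
    · obtain ⟨i, hi⟩ := h0
      rw [Finset.sum_eq_single i (fun j _ hj => by
        by_contra hn'; exact hj (h j i (by omega) hi)) (by simp)] at e
      have := h1 i
      omega
    · push Not at h0
      rw [Finset.sum_eq_zero fun j _ => by have := h0 j; omega] at e; omega

theorem lowerT {n T : ℕ} (hn : 2 ≤ n) (hT : 3 ≤ T) (h4 : 4 ≤ T ∨ 3 ≤ n)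
    {F : Finset (Grid n (T + 1))} (hF : Sat F (T + 3)) : 2 * T + 5 ≤ F.card := by
  classical
  by_contra hcon
  obtain ⟨K, hK⟩ : ∃ K, K = T + 3 := ⟨_, rfl⟩
  rw [← hK] at hF
  obtain ⟨f0, hf0⟩ : ∃ f0, f0 ∉ F := by
    by_contra hn'
    push Not at hn'
    have h1 : (Finset.univ : Finset (Grid n (T + 1))).card ≤ F.card :=
      Finset.card_le_card fun x _ => hn' x
    simp only [Finset.card_univ, Fintype.card_pi, Fintype.card_fin, Finset.prod_const] at h1
    have h2 : (T + 1) ^ 2 ≤ (T + 1) ^ n := Nat.pow_le_pow_right (by omega) hn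
    nlinarith
  obtain ⟨c0, -, hc0, -⟩ := hF.2 f0 hf0
  let A : ℕ → Finset (Grid n (T + 1)) := fun j => F.filter fun p => ∃ c, Ch F K c ∧ c j = p
  have hA : ∀ j p, p ∈ A j ↔ p ∈ F ∧ ∃ c, Ch F K c ∧ c j = p := fun j p => Finset.mem_filter
  have hAc : ∀ c, Ch F K c → ∀ j, j < K → c j ∈ A j :=
    fun c hc j hj => (hA _ _).2 ⟨hc.2 j hj, c, hc, rfl⟩
  let U := (Finset.range K).biUnion A
  have hU : U ⊆ F := by
    intro x hx
    obtain ⟨j, -, hj⟩ := Finset.mem_biUnion.1 hx
    exact ((hA _ _).1 hj).1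
  have hcU : U.card = ∑ j ∈ Finset.range K, (A j).card := by
    refine Finset.card_biUnion fun i hi j hj hij => ?_
    rw [Function.onFun, Finset.disjoint_left]
    intro x h1 h2
    obtain ⟨-, c, hc, e⟩ := (hA _ _).1 h1
    obtain ⟨-, c', hc', e'⟩ := (hA _ _).1 h2
    exact hij (splice_eq hF.1 hc hc' (by simpa using hi) (by simpa using hj) (e.trans e'.symm))
  have hcF : (F \ U).card + U.card = F.card := Finset.card_sdiff_add_card_eq_card hU
  have hcmp : ∀ f, f ∉ F \ U → ∀ j, j < K → ∃ p ∈ A j, f ≤ p ∨ p ≤ f := by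
    intro f hf j hj
    by_cases h1 : f ∈ F
    · have h2 : f ∈ U := by
        by_contra h3; exact hf (Finset.mem_sdiff.2 ⟨h1, h3⟩)
      obtain ⟨i, hi, h3⟩ := Finset.mem_biUnion.1 h2
      obtain ⟨-, c, hc, e⟩ := (hA _ _).1 h3
      refine ⟨c j, hAc c hc j hj, ?_⟩
      rw [← e]
      rcases le_total i j with h5 | h5
      · exact Or.inl (hc.le h5 hj)
      · exact Or.inr (hc.le h5 (by simpa using hi))
    · obtain ⟨c, i0, hc, -, a1, a2⟩ := hF.2 f h1
      refine ⟨c j, hAc c hc j hj, ?_⟩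
      rcases lt_or_ge j i0 with h5 | h5
      · exact Or.inr (a1 j h5).le
      · exact Or.inl (a2 j h5 hj).le
  let J := (Finset.range K).filter fun j => (A j).card = 1
  have hJ : ∀ j, j ∈ J ↔ j < K ∧ (A j).card = 1 := fun j => by simp [J]
  have hpos : ∀ j, j < K → 1 ≤ (A j).card := fun j hj => Finset.card_pos.2 ⟨_, hAc c0 hc0 j hj⟩
  have hJK : J.card ≤ K := (Finset.card_filter_le _ _).trans (by simp)
  have hsum : ∑ j ∈ Finset.range K, ((A j).card + if (A j).card = 1 then 1 else 0) =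
      U.card + J.card := by
    rw [Finset.sum_add_distrib, hcU, Finset.card_filter]
  have hterm : ∀ j ∈ Finset.range K, 2 ≤ (A j).card + if (A j).card = 1 then 1 else 0 := by
    intro j hj
    have := hpos j (by simpa using hj)
    split_ifs <;> omega
  have hge : 2 * K ≤ U.card + J.card := by
    rw [← hsum]
    have := Finset.sum_le_sum hterm
    simpa [mul_comm] using this
  have hinc : ∀ j ∈ J, ∀ p ∈ A j, Inc p ⊆ F \ U := by
    intro j hj p hp f hf
    by_contra hn'
    obtain ⟨p', hp', h1⟩ := hcmp f hn' j ((hJ j).1 hj).1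
    have : p' = p := Finset.card_le_one.1 ((hJ j).1 hj).2.le _ hp' _ hp
    rw [this] at h1
    exact h1.elim (mem_Inc.1 hf).1 (mem_Inc.1 hf).2
  have hJ2 : J.card ≤ 2 := by
    by_contra h3
    obtain ⟨j, hj, hj'⟩ : ∃ j ∈ J, j ∉ ({0, K - 1} : Finset ℕ) :=
      Finset.exists_mem_notMem_of_card_lt_card (Finset.card_le_two.trans_lt (by omega))
    simp only [Finset.mem_insert, Finset.mem_singleton, not_or] at hj'
    have hjK := ((hJ j).1 hj).1
    have r1 := ch_rk hc0 hjK
    have w1 := (incA hn (c0 j) (by omega) (by omega)).trans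
      (Finset.card_le_card (hinc j hj _ (hAc c0 hc0 j hjK)))
    obtain ⟨i, hi, hi'⟩ : ∃ j ∈ J, j ∉ ({0, 1, K - 2, K - 1} : Finset ℕ) :=
      Finset.exists_mem_notMem_of_card_lt_card (Finset.card_le_four.trans_lt (by omega))
    simp only [Finset.mem_insert, Finset.mem_singleton, not_or] at hi'
    have hiK := ((hJ i).1 hi).1
    have r2 := ch_rk hc0 hiK
    have w2 := (incB hn hT h4 (c0 i) (by omega) (by omega)).trans
      (Finset.card_le_card (hinc i hi _ (hAc c0 hc0 i hiK)))
    omega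
  have hW : F \ U = ∅ := Finset.card_eq_zero.1 (by omega)
  have hle2 : ∀ j, j < K → (A j).card ≤ 2 := by
    intro j hj
    by_contra h3
    have := Finset.sum_lt_sum hterm ⟨j, by simpa using hj, by split_ifs <;> omega⟩
    rw [hsum] at this
    simp only [Finset.sum_const, Finset.card_range, smul_eq_mul] at this
    omega
  have hax : ∀ p ∈ F, Ax p := by
    intro p hp
    have h2 : p ∈ U := by
      by_contra h3
      have := Finset.mem_sdiff.2 ⟨hp, h3⟩
      rw [hW] at this; simp at this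
    obtain ⟨j, hj, h3⟩ := Finset.mem_biUnion.1 h2
    have hjK : j < K := by simpa using hj
    by_cases h1 : (A j).card = 1
    · refine ax_of_ext p fun hh => ?_
      have := (incA hn p hh.1 hh.2).trans
        (Finset.card_le_card (hinc j ((hJ j).2 ⟨hjK, h1⟩) p h3))
      rw [hW] at this; simp at this; omega
    · obtain ⟨q, hq, hqp⟩ : ∃ q ∈ A j, q ≠ p :=
        Finset.exists_mem_ne (by have := hpos j hjK; omega) p
      have hAj : ({p, q} : Finset _) = A j := by
        refine Finset.eq_of_subset_of_card_le (by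
          intro x hx
          rcases Finset.mem_insert.1 hx with e | e
          · exact e ▸ h3
          · exact (Finset.mem_singleton.1 e) ▸ hq) ?_
        rw [Finset.card_pair hqp.symm]; exact hle2 j hjK
      obtain ⟨-, c, hc, e⟩ := (hA _ _).1 h3
      obtain ⟨-, c', hc', e'⟩ := (hA _ _).1 hq
      refine two_ax (q := q) (by omega) (fun hh => ?_) (fun hh => ?_) fun f => ?_
      · exact lt_irrefl _ (splice hF.1 hc hc' hjK hjK
          (by rw [e, e']; exact lt_of_le_of_ne hh hqp.symm))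
      · exact lt_irrefl _ (splice hF.1 hc' hc hjK hjK
          (by rw [e, e']; exact lt_of_le_of_ne hh hqp))
      · obtain ⟨x, hx, h5⟩ := hcmp f (by rw [hW]; simp) j hjK
        rw [← hAj] at hx
        rcases Finset.mem_insert.1 hx with e1 | e1
        · exact Or.inl (e1 ▸ h5)
        · exact Or.inr ((Finset.mem_singleton.1 e1) ▸ h5)
  let f : Grid n (T + 1) := fun _ => ⟨1, by omega⟩
  have hf : f ∉ F := by
    intro h1
    have := ax_low hn (by omega) f (hax f h1) fun _ => le_rfl
    simp [rk, f] at this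
    omega
  obtain ⟨c, i0, hc, b0, b1, b2⟩ := hF.2 f hf
  have hi0 : i0 ≤ 2 := by
    by_contra h3
    have := ax_low hn (by omega) (c 2) (hax _ (hc.2 2 (by omega))) fun i => (b1 2 (by omega)).le i
    have := (ch_rk hc (show 2 < K by omega)).1
    omega
  have e1 := ax_high hn (by omega) (c i0) (hax _ (hc.2 i0 (by omega)))
    fun i => (b2 i0 le_rfl (by omega)).le i
  have e2 := (ch_rk hc (show i0 < K by omega)).2
  omega

theorem gad_id (T : ℕ) : Gad (fun y : Fin (T + 1) => y.val) T where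
  mono := fun a b hab => hab
  le := fun y => by have := y.2; omega
  dn := fun y hy => ⟨⟨y.val - 1, by omega⟩, Fin.lt_def.2 (by simp only; omega), by simp only; omega⟩
  up := fun y hy => ⟨⟨y.val + 1, by omega⟩, Fin.lt_def.2 (by simp only; omega), le_rfl⟩

theorem upperT {n t : ℕ} (hn : 2 ≤ n) (ht : 1 ≤ t) :
    satStar (Fin (t + 3)) n (t + 1) ≤ 2 * t + 2 := by
  obtain ⟨m, rfl⟩ : ∃ m, n = m + 1 + 1 := ⟨n - 2, by omega⟩
  have : Nontrivial (Fin (t + 1)) := Fin.nontrivial_iff_two_le.2 (by omega)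
  obtain ⟨F, h1, h2⟩ := (gad_id t).prod_sat (Z := Fin (m + 1) → Fin (t + 1))
  have h3 := sat_upper (Fin.consOrderIso fun _ : Fin (m + 1 + 1) => Fin (t + 1)) h1
  have h4 := Finset.card_le_univ (SS fun y : Fin (t + 1) => y.val)
  have h5 := Finset.card_le_univ (LL fun y : Fin (t + 1) => y.val)
  simp only [Fintype.card_fin] at h4 h5
  have : satStar (Fin (t + 3)) (m + 1 + 1) (t + 1) ≤ F.card := h3
  omega

theorem dropT {n t : ℕ} (hn : 2 ≤ n) (ht : 4 ≤ t) :
    satStar (Fin (t + 3)) n (t + 1) < satStar (Fin (t + 3)) n t := by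
  have h1 := upperT hn (show 1 ≤ t by omega)
  by_cases h : 5 ≤ t ∨ 3 ≤ n
  · obtain ⟨T, rfl⟩ : ∃ T, t = T + 1 := ⟨t - 1, by omega⟩
    obtain ⟨F, h2, h3⟩ := sat_attained n (T + 1) (T + 3)
    have h4 := lowerT hn (by omega) (by omega) h2
    have : F.card = satStar (Fin (T + 1 + 3)) n (T + 1) := h3
    omega
  · obtain rfl : t = 4 := by omega
    obtain rfl : n = 2 := by omega
    have : 12 ≤ satStar (Fin (4 + 3)) 2 4 := chain_lower
    omega

end Pool.Agent.P.MP_8c6834_co.Far
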