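import Mathlib
import Pool.Agent.P.MP_8c6834_co.Far1

set_option autoImplicit false

namespace Pool.Agent.P.MP_8c6834_co.Far

/-- lower one coordinate by one -/
def dec {m T : ℕ} (y : Grid m (T + 1)) (i : Fin m) : Grid m (T + 1) :=
  fun j => ⟨if j = i then (y j).val - 1 else (y j).val, by have := (y j).2; split_ifs <;> omega⟩

/-- raise one coordinate by one -/
def inc {m T : ℕ} (y : Grid m (T + 1)) (i : Fin m) : Grid m (T + 1) :=
  fun j => ⟨if j = i then min ((y j).val + 1) T else (y j).val, by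
    have := (y j).2; split_ifs <;> omega⟩

theorem dec_lt {m T : ℕ} (y : Grid m (T + 1)) (i : Fin m) (h : 0 < (y i).val) : dec y i < y :=
  Pi.lt_def.2 ⟨fun j => Fin.le_def.2 (by simp only [dec]; split_ifs <;> omega),
    i, Fin.lt_def.2 (by simp only [dec, if_pos]; omega)⟩

theorem lt_inc {m T : ℕ} (y : Grid m (T + 1)) (i : Fin m) (h : (y i).val < T) : y < inc y i :=
  Pi.lt_def.2 ⟨fun j => Fin.le_def.2 (by
      have := (y j).2; simp only [inc]; split_ifs <;> omega),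
    i, Fin.lt_def.2 (by simp only [inc, if_pos]; omega)⟩

theorem gad_local {m T κ : ℕ} (g : Grid m (T + 1) → ℕ)
    (h1 : ∀ y z, (∀ i, (y i).val ≤ (z i).val) → g y ≤ g z) (h2 : ∀ y, g y ≤ κ)
    (h3 : ∀ y, 0 < g y → ∃ i, 0 < (y i).val ∧ g y ≤ g (dec y i) + 1)
    (h4 : ∀ y, g y < κ → ∃ i, (y i).val < T ∧ g (inc y i) ≤ g y + 1) : Gad g κ where
  mono := fun y z h => h1 y z h
  le := h2
  dn := fun y hy => by
    obtain ⟨i, a, b⟩ := h3 y hy
    exact ⟨_, dec_lt y i a, b⟩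
  up := fun y hy => by
    obtain ⟨i, a, b⟩ := h4 y hy
    exact ⟨_, lt_inc y i a, b⟩

theorem card_SS_local {m T : ℕ} (g : Grid m (T + 1) → ℕ) : (SS g).card ≤
    (Finset.univ.filter fun y => ∀ i, 0 < (y i).val → g (dec y i) < g y).card :=
  Finset.card_le_card fun y hy => Finset.mem_filter.2
    ⟨Finset.mem_univ _, fun i hi => mem_SS.1 hy _ (dec_lt y i hi)⟩

theorem card_LL_local {m T : ℕ} (g : Grid m (T + 1) → ℕ) : (LL g).card ≤
    (Finset.univ.filter fun y => ∀ i, (y i).val < T → g y < g (inc y i)).card :=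
  Finset.card_le_card fun y hy => Finset.mem_filter.2
    ⟨Finset.mem_univ _, fun i hi => mem_LL.1 hy _ (lt_inc y i hi)⟩

/-- a gadget that beats `a` free coordinates -/
def Good (T : ℕ) : Prop := ∃ (m a : ℕ) (g : Grid m (T + 1) → ℕ), 1 ≤ a ∧ a < m ∧ Gad g (a * T) ∧
  (SS g).card < (T + 1) ^ a ∧ (LL g).card < (T + 1) ^ a

def g2 (y : Grid 6 (1 + 1)) : ℕ :=
  [0, 0, 1, 2, 1, 2, 1, 2, 0, 0, 1, 3, 1, 2, 1, 3, 1, 1, 1, 2, 1, 2, 1, 2, 2, 2, 3, 3, 2, 2, 3, 3,
   1, 1, 2, 2, 2, 3, 2, 3, 1, 1, 2, 4, 2, 3, 2, 4, 1, 1, 2, 2, 3, 3, 3, 3, 2, 2, 3, 4, 3, 3, 3,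
   4].getD (gr 6 2 y) 0

def g3 (y : Grid 3 (2 + 1)) : ℕ :=
  [0, 1, 1, 1, 1, 1, 2, 2, 2, 0, 2, 3, 1, 2, 3, 3, 3, 3, 0, 2, 4, 1, 2, 4, 3, 3, 4].getD
    (gr 3 3 y) 0

def g4 (y : Grid 3 (3 + 1)) : ℕ :=
  [0, 1, 2, 3, 1, 1, 2, 4, 1, 1, 2, 5, 1, 1, 2, 5, 0, 1, 2, 3, 2, 2, 2, 4, 3, 3, 3, 5, 3, 3, 3, 5,
   0, 1, 2, 3, 3, 3, 4, 4, 4, 4, 4, 5, 4, 4, 4, 5, 0, 1, 2, 3, 3, 3, 4, 4, 5, 5, 5, 5, 6, 6, 6,
   6].getD (gr 3 4 y) 0

theorem good1 : Good 1 :=
  ⟨6, 4, g2, by norm_num, by norm_num,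
    gad_local g2 (by decide +kernel) (by decide +kernel) (by decide +kernel) (by decide +kernel),
    (card_SS_local g2).trans_lt (by decide +kernel),
    (card_LL_local g2).trans_lt (by decide +kernel)⟩

theorem good2 : Good 2 :=
  ⟨3, 2, g3, by norm_num, by norm_num,
    gad_local g3 (by decide +kernel) (by decide +kernel) (by decide +kernel) (by decide +kernel),
    (card_SS_local g3).trans_lt (by decide +kernel),
    (card_LL_local g3).trans_lt (by decide +kernel)⟩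

theorem good3 : Good 3 :=
  ⟨3, 2, g4, by norm_num, by norm_num,
    gad_local g4 (by decide +kernel) (by decide +kernel) (by decide +kernel) (by decide +kernel),
    (card_SS_local g4).trans_lt (by decide +kernel),
    (card_LL_local g4).trans_lt (by decide +kernel)⟩

def GG (a b c : ℕ) : ℕ := if a ≤ b then a + b else max (2 * b) (min (2 * c - 1) (2 * a))

def gT {T : ℕ} (y : Grid 3 (T + 1)) : ℕ := GG (y 0).val (y 1).val (y 2).val

theorem gT_dec0 {T : ℕ} (y : Grid 3 (T + 1)) :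
    gT (dec y 0) = GG ((y 0).val - 1) (y 1).val (y 2).val := by simp [gT, dec]
theorem gT_dec1 {T : ℕ} (y : Grid 3 (T + 1)) :
    gT (dec y 1) = GG (y 0).val ((y 1).val - 1) (y 2).val := by simp [gT, dec]
theorem gT_dec2 {T : ℕ} (y : Grid 3 (T + 1)) :
    gT (dec y 2) = GG (y 0).val (y 1).val ((y 2).val - 1) := by simp [gT, dec]
theorem gT_inc0 {T : ℕ} (y : Grid 3 (T + 1)) :
    gT (inc y 0) = GG (min ((y 0).val + 1) T) (y 1).val (y 2).val := by simp [gT, inc]
theorem gT_inc1 {T : ℕ} (y : Grid 3 (T + 1)) :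
    gT (inc y 1) = GG (y 0).val (min ((y 1).val + 1) T) (y 2).val := by simp [gT, inc]
theorem gT_inc2 {T : ℕ} (y : Grid 3 (T + 1)) :
    gT (inc y 2) = GG (y 0).val (y 1).val (min ((y 2).val + 1) T) := by simp [gT, inc]

theorem GG_dn (a b c : ℕ) (h : 0 < GG a b c) : (0 < a ∧ GG a b c ≤ GG (a - 1) b c + 1) ∨
    (0 < b ∧ GG a b c ≤ GG a (b - 1) c + 1) ∨ (0 < c ∧ GG a b c ≤ GG a b (c - 1) + 1) := by
  unfold GG at *
  split_ifs at * <;> omega

theorem GG_up (T a b c : ℕ) (ha : a ≤ T) (hb : b ≤ T) (hc : c ≤ T) (h : GG a b c < 2 * T) :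
    (a < T ∧ GG (min (a + 1) T) b c ≤ GG a b c + 1) ∨
    (b < T ∧ GG a (min (b + 1) T) c ≤ GG a b c + 1) ∨
    (c < T ∧ GG a b (min (c + 1) T) ≤ GG a b c + 1) := by
  unfold GG at *
  split_ifs at * <;> omega

theorem GG_S (a b c : ℕ) (h1 : 0 < a → GG (a - 1) b c < GG a b c)
    (h2 : 0 < b → GG a (b - 1) c < GG a b c) (h3 : 0 < c → GG a b (c - 1) < GG a b c) :
    (a ≤ b ∧ c = 0) ∨ (b < a ∧ b = 0 ∧ (c = a ∨ c = a + 1)) := by
  unfold GG at *
  split_ifs at * <;> omega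

theorem GG_L (T a b c : ℕ) (ha : a ≤ T) (hb : b ≤ T) (hc : c ≤ T)
    (h1 : a < T → GG a b c < GG (min (a + 1) T) b c)
    (h2 : b < T → GG a b c < GG a (min (b + 1) T) c)
    (h3 : c < T → GG a b c < GG a b (min (c + 1) T)) :
    (a ≤ b ∧ c = T) ∨ (b < a ∧ a = T ∧ (c = b ∨ c = b + 1)) := by
  unfold GG at *
  split_ifs at * <;> omega

theorem gad_gT (T : ℕ) : Gad (gT (T := T)) (2 * T) := by
  refine gad_local _ (fun y z h => ?_) (fun y => ?_) (fun y hy => ?_) (fun y hy => ?_)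
  · have h0 := h 0
    have h1 := h 1
    have h2 := h 2
    unfold gT GG
    split_ifs <;> omega
  · have h0 := (y 0).2
    have h1 := (y 1).2
    unfold gT GG
    split_ifs <;> omega
  · rcases GG_dn _ _ _ hy with h | h | h
    · exact ⟨0, h.1, by rw [gT_dec0]; exact h.2⟩
    · exact ⟨1, h.1, by rw [gT_dec1]; exact h.2⟩
    · exact ⟨2, h.1, by rw [gT_dec2]; exact h.2⟩
  · rcases GG_up T _ _ _ (Nat.le_of_lt_succ (y 0).2) (Nat.le_of_lt_succ (y 1).2)
      (Nat.le_of_lt_succ (y 2).2) hy with h | h | h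
    · exact ⟨0, h.1, by rw [gT_inc0]; exact h.2⟩
    · exact ⟨1, h.1, by rw [gT_inc1]; exact h.2⟩
    · exact ⟨2, h.1, by rw [gT_inc2]; exact h.2⟩

theorem ext3 {T : ℕ} {y z : Grid 3 (T + 1)} (h0 : (y 0).val = (z 0).val)
    (h1 : (y 1).val = (z 1).val) (h2 : (y 2).val = (z 2).val) : y = z := by
  funext i
  fin_cases i
  · exact Fin.ext h0
  · exact Fin.ext h1
  · exact Fin.ext h2

theorem card_sq (T : ℕ) (p : ℕ × ℕ) (h1 : p.1 ≤ T) (h2 : p.2 ≤ T) :
    ((Finset.range (T + 1) ×ˢ Finset.range (T + 1)).erase p).card < (T + 1) ^ 2 := by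
  have := Finset.card_erase_lt_of_mem (s := Finset.range (T + 1) ×ˢ Finset.range (T + 1)) (a := p)
    (by simp only [Finset.mem_product, Finset.mem_range]; omega)
  simpa [sq] using this

theorem goodT {T : ℕ} (hT : 4 ≤ T) : Good T := by
  have hS : ∀ y ∈ SS (gT (T := T)), ((y 0).val ≤ (y 1).val ∧ (y 2).val = 0) ∨
      ((y 1).val < (y 0).val ∧ (y 1).val = 0 ∧
        ((y 2).val = (y 0).val ∨ (y 2).val = (y 0).val + 1)) := fun y hy =>
    GG_S _ _ _ (fun h => by rw [← gT_dec0]; exact mem_SS.1 hy _ (dec_lt y 0 h))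
      (fun h => by rw [← gT_dec1]; exact mem_SS.1 hy _ (dec_lt y 1 h))
      (fun h => by rw [← gT_dec2]; exact mem_SS.1 hy _ (dec_lt y 2 h))
  have hL : ∀ y ∈ LL (gT (T := T)), ((y 0).val ≤ (y 1).val ∧ (y 2).val = T) ∨
      ((y 1).val < (y 0).val ∧ (y 0).val = T ∧
        ((y 2).val = (y 1).val ∨ (y 2).val = (y 1).val + 1)) := fun y hy =>
    GG_L T _ _ _ (Nat.le_of_lt_succ (y 0).2) (Nat.le_of_lt_succ (y 1).2)
      (Nat.le_of_lt_succ (y 2).2)
      (fun h => by rw [← gT_inc0]; exact mem_LL.1 hy _ (lt_inc y 0 h))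
      (fun h => by rw [← gT_inc1]; exact mem_LL.1 hy _ (lt_inc y 1 h))
      (fun h => by rw [← gT_inc2]; exact mem_LL.1 hy _ (lt_inc y 2 h))
  refine ⟨3, 2, gT, by norm_num, by norm_num, gad_gT T,
    lt_of_le_of_lt ?_ (card_sq T (3, 2) (by omega) (by omega)),
    lt_of_le_of_lt ?_ (card_sq T (1, 0) (by omega) (by omega))⟩
  · refine Finset.card_le_card_of_injOn (fun y => if (y 0).val ≤ (y 1).val then
      ((y 0).val, (y 1).val) else if (y 2).val = (y 0).val then ((y 0).val, 0)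
      else ((y 0).val + 1, 1)) (fun y hy => ?_) fun y hy z hz h => ?_
    · have a := hS y hy
      have h0 := (y 0).2
      have h1 := (y 1).2
      have h2 := (y 2).2
      simp only [Finset.coe_erase, Finset.coe_product, Finset.coe_range, Set.mem_sdiff,
        Set.mem_prod, Set.mem_Iio, Set.mem_singleton_iff]
      split_ifs <;> simp only [Prod.mk.injEq] <;> omega
    · have a := hS y hy
      have b := hS z hz
      dsimp only at h
      split_ifs at h <;> simp only [Prod.mk.injEq] at h <;> exact ext3 (by omega) (by omega) (by omega)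
  · refine Finset.card_le_card_of_injOn (fun y => if (y 0).val ≤ (y 1).val then
      ((y 0).val, (y 1).val) else if (y 2).val = (y 1).val then (T, (y 1).val)
      else if (y 1).val + 1 < T then (T - 1, (y 1).val) else (T - 2, 0))
      (fun y hy => ?_) fun y hy z hz h => ?_
    · have a := hL y hy
      have h0 := (y 0).2
      have h1 := (y 1).2
      have h2 := (y 2).2
      simp only [Finset.coe_erase, Finset.coe_product, Finset.coe_range, Set.mem_sdiff,
        Set.mem_prod, Set.mem_Iio, Set.mem_singleton_iff]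
      split_ifs <;> simp only [Prod.mk.injEq] <;> omega
    · have a := hL y hy
      have b := hL z hz
      dsimp only at h
      split_ifs at h <;> simp only [Prod.mk.injEq] at h <;> exact ext3 (by omega) (by omega) (by omega)

theorem good {T : ℕ} (hT : 1 ≤ T) : Good T := by
  rcases (by omega : T = 1 ∨ T = 2 ∨ T = 3 ∨ 4 ≤ T) with h | h | h | h
  · exact h ▸ good1
  · exact h ▸ good2
  · exact h ▸ good3
  · exact goodT h

end Pool.Agent.P.MP_8c6834_co.Far
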