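import Mathlib
import Pool.Agent.P.MP_8c6834_co.Far3
import Pool.Agent.P.MP_8c6834_co.Far4

set_option autoImplicit false

namespace Pool.Agent.P.MP_8c6834_co.Far

def blockIso {I : Type} {m N t : ℕ} (e : I × Fin m ≃ Fin N) :
    (I → Grid m t) × Fin t ≃o Fin t × Grid N t where
  toFun p := (p.2, fun c => p.1 (e.symm c).1 (e.symm c).2)
  invFun q := (fun i j => q.2 (e (i, j)), q.1)
  left_inv p := by simp
  right_inv q := by simp
  map_rel_iff' := by
    intro p q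
    simp only [Equiv.coe_fn_mk, Prod.le_def, Pi.le_def]
    constructor
    · rintro ⟨h1, h2⟩
      exact ⟨fun i j => by simpa using h2 (e (i, j)), h1⟩
    · rintro ⟨h1, h2⟩
      exact ⟨h2, fun c => h1 _ _⟩

theorem upperN {T m κ A : ℕ} (hT : 1 ≤ T) {g : Grid m (T + 1) → ℕ} (hg : Gad g κ)
    (hS : (SS g).card ≤ A) (hL : (LL g).card ≤ A) (M ρ : ℕ) (hρ : ρ ≤ κ) :
    satStar (Fin (ρ + M * κ + 2 + 1)) ((M + 1) * m + 1) (T + 1) ≤ 2 * ((T + 1) ^ m * A ^ M) := by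
  have : Nontrivial (Fin (T + 1)) := Fin.nontrivial_iff_two_le.2 (by omega)
  let h : Option (Fin M) → Grid m (T + 1) → ℕ := fun i => i.elim (fun y => min (g y) ρ) fun _ => g
  let k : Option (Fin M) → ℕ := fun i => i.elim ρ fun _ => κ
  have hh : ∀ i, Gad (h i) (k i) := by
    rintro (_ | i)
    · exact hg.trunc hρ
    · exact hg
  have hk : ∑ i, k i = ρ + M * κ := by simp [k, Fintype.sum_option]
  have hG := Gad.pi hh
  rw [hk] at hG
  obtain ⟨F, h1, h2⟩ := hG.prod_sat (Z := Fin (T + 1))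
  let e : Option (Fin M) × Fin m ≃ Fin ((M + 1) * m) := Fintype.equivFinOfCardEq (by simp)
  have h3 := sat_upper ((blockIso e).trans
    (Fin.consOrderIso fun _ : Fin ((M + 1) * m + 1) => Fin (T + 1))) h1
  have hu : ∀ s : Finset (Grid m (T + 1)), s.card ≤ (T + 1) ^ m := fun s => by
    simpa using Finset.card_le_univ s
  have h4 : ∏ i, (SS (h i)).card ≤ (T + 1) ^ m * A ^ M := by
    rw [Fintype.prod_option]
    refine Nat.mul_le_mul (hu _) ?_
    simpa using Finset.prod_le_pow_card Finset.univ (fun i : Fin M => (SS (h (some i))).card) A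
      fun _ _ => hS
  have h5 : ∏ i, (LL (h i)).card ≤ (T + 1) ^ m * A ^ M := by
    rw [Fintype.prod_option]
    refine Nat.mul_le_mul (hu _) ?_
    simpa using Finset.prod_le_pow_card Finset.univ (fun i : Fin M => (LL (h (some i))).card) A
      fun _ _ => hL
  have h6 := card_SS_pi h
  have h7 := card_LL_pi h
  omega

/-- Hamming distance -/
def ham {n t : ℕ} (a b : Grid n t) : ℕ := ∑ j, if a j = b j then 0 else 1

theorem ham_comm {n t : ℕ} (a b : Grid n t) : ham a b = ham b a :=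
  Finset.sum_congr rfl fun j _ => by simp only [eq_comm]

theorem ham_le {n t : ℕ} {a b : Grid n t} (h : a ≤ b) : ham a b + rk a ≤ rk b := by
  unfold ham rk
  rw [← Finset.sum_add_distrib]
  refine Finset.sum_le_sum fun j _ => ?_
  have h1 : (a j).val ≤ (b j).val := h j
  split_ifs with e
  · omega
  · have : (a j).val ≠ (b j).val := fun e' => e (Fin.ext e')
    omega

theorem near {n T K R : ℕ} (hK : 1 ≤ K) (hR : n * T + 1 ≤ K + R) {F : Finset (Grid n (T + 1))}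
    (hF : Sat F K) (f : Grid n (T + 1)) : ∃ s ∈ F, ham f s ≤ R := by
  by_cases hf : f ∈ F
  · exact ⟨f, hf, by simp [ham]⟩
  obtain ⟨c, i0, hc, b0, b1, b2⟩ := hF.2 f hf
  rcases i0 with _ | i
  · refine ⟨c 0, hc.2 0 hK, ?_⟩
    have h1 := ham_le (b2 0 le_rfl hK).le
    have h2 := (ch_rk hc (show 0 < K by omega)).2
    omega
  · refine ⟨c i, hc.2 i (by omega), ?_⟩
    rw [ham_comm]
    have h1 := ham_le (b1 i (by omega)).le
    have h2 := (ch_rk hc (show i < K by omega)).1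
    by_cases h : i + 1 < K
    · have h3 := rk_lt (b2 (i + 1) le_rfl h)
      have h4 := (ch_rk hc h).2
      omega
    · have h3 := rk_le f
      simp only [Nat.add_sub_cancel] at h3
      omega

theorem cover {n T K R q : ℕ} (hK : 1 ≤ K) (hR : n * T + 1 ≤ K + R) (hq : 1 ≤ q) :
    (T + 1) ^ n * q ^ n ≤ satStar (Fin (K + 1)) n (T + 1) * ((q + T) ^ n * q ^ R) := by
  obtain ⟨F, hF, hc⟩ := sat_attained n (T + 1) K
  rw [← hc]
  let w : Grid n (T + 1) → Grid n (T + 1) → ℕ := fun f s => ∏ j, if f j = s j then q else 1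
  have h1 : ∀ f s, w f s * q ^ ham f s = q ^ n := by
    intro f s
    unfold ham
    rw [← Finset.prod_pow_eq_pow_sum, ← Finset.prod_mul_distrib,
      Finset.prod_congr rfl (g := fun _ => q) fun j _ => by split_ifs <;> simp]
    simp
  have h2 : ∀ s, ∑ f, w f s = (q + T) ^ n := by
    intro s
    have := Finset.prod_univ_sum (fun _ : Fin n => (Finset.univ : Finset (Fin (T + 1))))
      (fun j v => if v = s j then q else 1)
    rw [Fintype.piFinset_univ] at this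
    rw [← this, Finset.prod_congr rfl (g := fun _ => q + T) fun j _ => ?_]
    · simp
    · rw [← Finset.add_sum_erase _ _ (Finset.mem_univ (s j)), if_pos rfl,
        Finset.sum_congr rfl (g := fun _ => 1) fun v hv => if_neg (Finset.ne_of_mem_erase hv)]
      simp
  have h3 : ∀ f, q ^ n ≤ ∑ s ∈ F, w f s * q ^ R := by
    intro f
    obtain ⟨s, hs, h⟩ := near hK hR hF f
    refine le_trans ?_ (Finset.single_le_sum (f := fun s => w f s * q ^ R)
      (fun _ _ => Nat.zero_le _) hs)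
    rw [← h1 f s]
    exact Nat.mul_le_mul_left _ (Nat.pow_le_pow_right hq h)
  calc (T + 1) ^ n * q ^ n = ∑ _f : Grid n (T + 1), q ^ n := by simp
    _ ≤ ∑ f, ∑ s ∈ F, w f s * q ^ R := Finset.sum_le_sum fun f _ => h3 f
    _ = ∑ s ∈ F, (q + T) ^ n * q ^ R := by
      rw [Finset.sum_comm]
      exact Finset.sum_congr rfl fun s _ => by rw [← Finset.sum_mul, h2]
    _ = _ := by simp

theorem ex_q (A T a : ℕ) : ∃ q : ℕ, 1 ≤ q ∧ A * (q + T) ^ a < (A + 1) * q ^ a := by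
  have h1 : Filter.Tendsto (fun q : ℕ => (A : ℝ) * (1 + (T : ℝ) / q) ^ a) Filter.atTop
      (nhds ((A : ℝ) * (1 + 0) ^ a)) :=
    (((tendsto_const_div_atTop_nhds_zero_nat (T : ℝ)).const_add 1).pow a).const_mul _
  have h2 := h1.eventually (gt_mem_nhds (show (A : ℝ) * (1 + 0) ^ a < A + 1 by simp))
  obtain ⟨q, h3, h4⟩ := (h2.and (Filter.eventually_ge_atTop 1)).exists
  refine ⟨q, h4, ?_⟩
  have hq : (0 : ℝ) < q := by exact_mod_cast h4
  have h5 : ((q : ℝ) + T) ^ a = (1 + (T : ℝ) / q) ^ a * q ^ a := by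
    rw [← mul_pow]; congr 1; field_simp
  have h6 : (A : ℝ) * (q + T) ^ a < (A + 1) * q ^ a := by
    rw [h5, ← mul_assoc]; exact mul_lt_mul_of_pos_right h3 (by positivity)
  exact_mod_cast h6

theorem ex_w {u v : ℕ} (h : u < v) (Q : ℕ) : ∃ w, 2 ≤ w ∧ Q * u ^ w ≤ v ^ w := by
  have hv : (0 : ℝ) < v := by exact_mod_cast (Nat.zero_le u).trans_lt h
  obtain ⟨w, hw⟩ := exists_pow_lt_of_lt_one (show (0 : ℝ) < 1 / (Q + 1) by positivity)
    (show (u : ℝ) / v < 1 by rw [div_lt_one hv]; exact_mod_cast h)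
  rw [div_pow, div_lt_div_iff₀ (by positivity) (by positivity)] at hw
  have h1 : u ^ w * (Q + 1) < 1 * v ^ w := by exact_mod_cast hw
  refine ⟨w + 2, by omega, ?_⟩
  have h2 : u ^ 2 ≤ v ^ 2 := Nat.pow_le_pow_left h.le 2
  have h3 : Q * u ^ w ≤ v ^ w := by nlinarith [Nat.zero_le (u ^ w)]
  rw [pow_add, pow_add, ← mul_assoc]
  exact Nat.mul_le_mul h3 h2

theorem grow {u v Q w C M : ℕ} (hu : 0 < u) (huv : u ≤ v) (hQ : 0 < Q)
    (hw : 2 * Q * u ^ w ≤ v ^ w) (hM : C ≤ M / w) : C * Q ^ (M / w) * u ^ M < v ^ M := by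
  have e := Nat.div_add_mod M w
  have h1 : C < 2 ^ (M / w) := hM.trans_lt Nat.lt_two_pow_self
  have h2 : (2 * Q * u ^ w) ^ (M / w) * u ^ (M % w) ≤ (v ^ w) ^ (M / w) * v ^ (M % w) :=
    Nat.mul_le_mul (Nat.pow_le_pow_left hw _) (Nat.pow_le_pow_left huv _)
  rw [mul_pow, mul_pow, ← pow_mul, ← pow_mul, mul_assoc, ← pow_add, ← pow_add, e] at h2
  refine lt_of_lt_of_le ?_ h2
  exact Nat.mul_lt_mul_of_pos_right (Nat.mul_lt_mul_of_pos_right h1 (by positivity))
    (by positivity)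

theorem ex_drop (s : ℕ → ℕ) {x y : ℕ} (hxy : x ≤ y) (h : s y < s x) :
    ∃ z, x ≤ z ∧ s (z + 1) < s z := by
  by_contra hn
  push Not at hn
  have : ∀ y, x ≤ y → s x ≤ s y := fun y hy => by
    induction hy with
    | refl => exact le_rfl
    | step h1 ih => exact ih.trans (hn _ h1)
  exact absurd (this y hxy) (not_le.2 h)

theorem dropN {t : ℕ} (ht : 2 ≤ t) : ∃ c k0 : ℕ, ∀ k, k0 ≤ k → ∃ n d : ℕ, 0 < n ∧ k ≤ c * d ∧
    k ≤ n * (t - 1) + 1 ∧
    satStar (Fin k) (n + d + 1) t < satStar (Fin k) (n + d) t := by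
  obtain ⟨T, rfl⟩ : ∃ T, t = T + 1 := ⟨t - 1, by omega⟩
  have hT : 1 ≤ T := by omega
  obtain ⟨m, a, g, ha, ham', hg, hS, hL⟩ := good hT
  obtain ⟨A, hA⟩ : ∃ A, (T + 1) ^ a = A + 1 := ⟨(T + 1) ^ a - 1, by omega⟩
  have hA1 : 1 ≤ A := by
    have : 2 ^ 1 ≤ (T + 1) ^ a :=
      (Nat.pow_le_pow_left ht 1).trans (Nat.pow_le_pow_right (by omega) ha)
    omega
  obtain ⟨q, hq, huv⟩ := ex_q A T a
  obtain ⟨Q, hQ⟩ : ∃ Q, Q = (q + T) * q ^ T := ⟨_, rfl⟩
  have hQ0 : 0 < Q := by rw [hQ]; positivity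
  obtain ⟨w, hw2, hw⟩ := ex_w huv (2 * Q)
  obtain ⟨C, hC⟩ : ∃ C, C = 2 * (T + 1) ^ m * Q ^ (a + 3) := ⟨_, rfl⟩
  have hκ : 0 < a * T := Nat.mul_pos ha hT
  refine ⟨(a * T + 3) * w, 3 + (C + 2) * w * (a * T), fun k hk => ?_⟩
  obtain ⟨M, hM⟩ : ∃ M, M = (k - 3) / (a * T) := ⟨_, rfl⟩
  obtain ⟨ρ, hρ⟩ : ∃ ρ, ρ = (k - 3) % (a * T) := ⟨_, rfl⟩
  have hρ' : ρ < a * T := hρ ▸ Nat.mod_lt _ hκ
  have hM1 : (C + 2) * w ≤ M := by rw [hM, Nat.le_div_iff_mul_le hκ]; omega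
  have hk' : k = ρ + M * (a * T) + 2 + 1 := by
    have := Nat.div_add_mod' (k - 3) (a * T)
    rw [← hM, ← hρ] at this; omega
  subst hk'
  clear hM hρ hk
  obtain ⟨D, hD⟩ : ∃ D, D = M / w := ⟨_, rfl⟩
  have hD1 : C + 2 ≤ D := by rw [hD, Nat.le_div_iff_mul_le (by omega)]; exact hM1
  have hD2 : D * w ≤ M := hD ▸ Nat.div_mul_le_self M w
  have hD3 : M < (D + 1) * w := by
    rw [hD, mul_comm]; exact Nat.lt_mul_div_succ M (by omega)
  have hup := upperN hT hg (A := A) (by omega) (by omega) M ρ hρ'.le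
  have hcov := cover (n := a * M + (a + 3 + D)) (T := T) (K := ρ + M * (a * T) + 2)
    (R := T * (a + 3 + D)) (by omega) (by nlinarith) hq
  have hgr := grow (u := A * (q + T) ^ a) (v := (A + 1) * q ^ a) (Q := Q) (w := w) (C := C) (M := M)
    (by positivity) huv.le hQ0 hw (by omega)
  rw [← hD] at hgr
  have hlt : satStar (Fin (ρ + M * (a * T) + 2 + 1)) ((M + 1) * m + 1) (T + 1) <
      satStar (Fin (ρ + M * (a * T) + 2 + 1)) (a * M + (a + 3 + D)) (T + 1) := by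
    refine hup.trans_lt (lt_of_mul_lt_mul_right (lt_of_lt_of_le ?_ hcov) (Nat.zero_le _))
    have e1 : 2 * ((T + 1) ^ m * A ^ M) *
        ((q + T) ^ (a * M + (a + 3 + D)) * q ^ (T * (a + 3 + D))) =
        C * Q ^ D * (A * (q + T) ^ a) ^ M := by
      rw [hC, hQ, pow_add (q + T) (a * M), pow_mul, pow_mul, mul_pow A, mul_assoc (2 * _),
        ← pow_add, mul_pow (q + T)]
      ring
    have e2 : (T + 1) ^ (a * M + (a + 3 + D)) * q ^ (a * M + (a + 3 + D)) =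
        ((A + 1) * q ^ a) ^ M * ((T + 1) ^ (a + 3 + D) * q ^ (a + 3 + D)) := by
      rw [← hA, pow_add (T + 1) (a * M), pow_add q (a * M), pow_mul, pow_mul, mul_pow]
      ring
    rw [e1, e2]
    exact hgr.trans_le (Nat.le_mul_of_pos_right _ (by positivity))
  obtain ⟨z, hz, hz'⟩ := ex_drop (fun n => satStar (Fin (ρ + M * (a * T) + 2 + 1)) n (T + 1))
    (show a * M + (a + 3 + D) ≤ (M + 1) * m + 1 by
      have : (M + 1) * (a + 1) ≤ (M + 1) * m := Nat.mul_le_mul_left _ ham'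
      nlinarith) hlt
  obtain ⟨d, rfl⟩ : ∃ d, z = a * M + a + 2 + d := ⟨z - (a * M + a + 2), by omega⟩
  refine ⟨a * M + a + 2, d, by omega, ?_, ?_, hz'⟩
  · have h1 : (D + 1) * w ≤ d * w := Nat.mul_le_mul_right _ (by omega)
    have h2 : (a * T + 3) * (M + 1) ≤ (a * T + 3) * (d * w) := Nat.mul_le_mul_left _ (by omega)
    nlinarith
  · simp only [Nat.add_sub_cancel]
    nlinarith

end Pool.Agent.P.MP_8c6834_co.Far
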